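import Mathlib

open scoped Manifold ContDiff Topology
open Set Filter Bundle

noncomputable section

namespace Pool.Agent.Lib.MP_ad9325_ag

variable
  {E₁ : Type} [NormedAddCommGroup E₁] [NormedSpace ℂ E₁] {H₁ : Type} [TopologicalSpace H₁]
  {M₁ : Type} [TopologicalSpace M₁] [ChartedSpace H₁ M₁]
  {E₂ : Type} [NormedAddCommGroup E₂] [NormedSpace ℂ E₂] {H₂ : Type} [TopologicalSpace H₂]
  {M₂ : Type} [TopologicalSpace M₂] [ChartedSpace H₂ M₂]
  {E₃ : Type} [NormedAddCommGroup E₃] [NormedSpace ℂ E₃] {H₃ : Type} [TopologicalSpace H₃]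
  {M₃ : Type} [TopologicalSpace M₃] [ChartedSpace H₃ M₃]

/-- The differential, typed between the model vector spaces. -/
def D (I : ModelWithCorners ℂ E₁ H₁) (J : ModelWithCorners ℂ E₂ H₂) (f : M₁ → M₂) (x : M₁) :
    E₁ →L[ℂ] E₂ := mfderiv I J f x

variable {I : ModelWithCorners ℂ E₁ H₁} {J : ModelWithCorners ℂ E₂ H₂}
  {K : ModelWithCorners ℂ E₃ H₃}

theorem D_comp {f : M₁ → M₂} {g : M₂ → M₃} {x : M₁} (hg : MDifferentiableAt J K g (f x))
    (hf : MDifferentiableAt I J f x) :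
    D I K (fun y => g (f y)) x = (D J K g (f x)).comp (D I J f x) := mfderiv_comp x hg hf

theorem D_comp_of_eq {f : M₁ → M₂} {g : M₂ → M₃} {x : M₁} {y : M₂}
    (hg : MDifferentiableAt J K g y) (hf : MDifferentiableAt I J f x) (h : f x = y) :
    D I K (fun y => g (f y)) x = (D J K g y).comp (D I J f x) := by
  subst h; exact D_comp hg hf

theorem D_congr {f g : M₁ → M₂} {x : M₁} (h : f =ᶠ[𝓝 x] g) : D I J f x = D I J g x :=
  h.mfderiv_eq

theorem D_id {x : M₁} : D I I (fun y : M₁ => y) x = ContinuousLinearMap.id ℂ E₁ := mfderiv_id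

theorem D_const {x : M₁} {c : M₂} : D I J (fun _ : M₁ => c) x = 0 := mfderiv_const

theorem D_prodMk {f : M₁ → M₂} {g : M₁ → M₃} {x : M₁} (hf : MDifferentiableAt I J f x)
    (hg : MDifferentiableAt I K g x) :
    D I (J.prod K) (fun y => (f y, g y)) x = (D I J f x).prod (D I K g x) :=
  mfderiv_prodMk hf hg

theorem D_fst {x : M₁ × M₂} : D (I.prod J) I Prod.fst x = ContinuousLinearMap.fst ℂ E₁ E₂ :=
  mfderiv_fst

theorem D_snd {x : M₁ × M₂} : D (I.prod J) J Prod.snd x = ContinuousLinearMap.snd ℂ E₁ E₂ :=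
  mfderiv_snd

theorem D_prod_eq_add {f : M₁ × M₂ → M₃} {p : M₁ × M₂} (hf : MDifferentiableAt (I.prod J) K f p)
    (u : E₁) (v : E₂) :
    D (I.prod J) K f p (u, v) =
      D I K (fun z => f (z, p.2)) p.1 u + D J K (fun z => f (p.1, z)) p.2 v :=
  mfderiv_prod_eq_add_apply (v := ((u, v) : E₁ × E₂)) hf

theorem D_eq_fderiv {f : E₁ → E₂} {x : E₁} : D 𝓘(ℂ, E₁) 𝓘(ℂ, E₂) f x = fderiv ℂ f x :=
  mfderiv_eq_fderiv

theorem mvfderiv_eq_D {f : M₁ → E₂} {x : M₁} (v : E₁) :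
    mvfderiv I f x v = D I 𝓘(ℂ, E₂) f x v := rfl

theorem D_clm (L : E₁ →L[ℂ] E₂) (x : E₁) : D 𝓘(ℂ, E₁) 𝓘(ℂ, E₂) L x = L := by
  rw [D_eq_fderiv]; exact L.fderiv

theorem D_clm_comp {F : Type} [NormedAddCommGroup F] [NormedSpace ℂ F] (L : E₂ →L[ℂ] F)
    {f : M₁ → E₂} {x : M₁} (hf : MDifferentiableAt I 𝓘(ℂ, E₂) f x) :
    D I 𝓘(ℂ, F) (fun y => L (f y)) x = L.comp (D I 𝓘(ℂ, E₂) f x) := by
  rw [D_comp (g := L) L.mdifferentiableAt hf, D_clm]

variable [IsManifold I 1 M₁] [IsManifold J 1 M₂]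

theorem contMDiffAt_tangent {f : M₁ → M₂} {s : Set M₁} (hs : IsOpen s)
    (hf : ContMDiffOn I J ω f s) {b : M₃ → M₁} {v : M₃ → E₁} {p : M₃}
    (hZ : ContMDiffAt K I.tangent ω (fun q => (⟨b q, v q⟩ : TangentBundle I M₁)) p)
    (hp : b p ∈ s) :
    ContMDiffAt K J.tangent ω
      (fun q => (⟨f (b q), D I J f (b q) (v q)⟩ : TangentBundle J M₂)) p := by
  have h1 := hf.contMDiffOn_tangentMapWithin (m := ω) (by simp) hs.uniqueMDiffOn
  have ho : IsOpen (π E₁ (TangentSpace I) ⁻¹' s) :=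
    hs.preimage (FiberBundle.continuous_proj E₁ (TangentSpace I : M₁ → Type))
  have h2 := (h1.contMDiffAt (ho.mem_nhds (x := (⟨b p, v p⟩ : TangentBundle I M₁)) hp)).comp p hZ
  refine h2.congr_of_eventuallyEq ?_
  have hb : ContinuousAt b p :=
    ((FiberBundle.continuous_proj E₁ (TangentSpace I : M₁ → Type)).continuousAt.comp
      hZ.continuousAt)
  filter_upwards [hb.preimage_mem_nhds (hs.mem_nhds hp)] with q hq
  simp only [Function.comp_apply, tangentMapWithin]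
  rw [mfderivWithin_of_isOpen hs hq]
  rfl

theorem contMDiffAt_tangent' {f : M₁ → M₂}
    (hf : ContMDiff I J ω f) {b : M₃ → M₁} {v : M₃ → E₁} {p : M₃}
    (hZ : ContMDiffAt K I.tangent ω (fun q => (⟨b q, v q⟩ : TangentBundle I M₁)) p) :
    ContMDiffAt K J.tangent ω
      (fun q => (⟨f (b q), D I J f (b q) (v q)⟩ : TangentBundle J M₂)) p :=
  contMDiffAt_tangent isOpen_univ hf.contMDiffOn hZ (mem_univ _)

theorem contMDiffAt_const_base_iff {x₀ : M₁} {v : M₃ → E₁} {p : M₃} :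
    ContMDiffAt K I.tangent ω (fun q => (⟨x₀, v q⟩ : TangentBundle I M₁)) p ↔
      ContMDiffAt K 𝓘(ℂ, E₁) ω v p := by
  rw [ModelWithCorners.tangent, contMDiffAt_totalSpace]
  have : (fun q => (trivializationAt E₁ (TangentSpace I) x₀
      (⟨x₀, v q⟩ : TangentBundle I M₁)).2) = v := by
    funext q
    exact tangentCoordChange_self (I := I) (x := x₀) (z := x₀) (v := v q)
      (mem_extChartAt_source x₀)
  exact ⟨fun h => this ▸ h.2, fun h => ⟨contMDiffAt_const, this.symm ▸ h⟩⟩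

theorem contMDiffAt_zero_vec {b : M₃ → M₁} {p : M₃} (hb : ContMDiffAt K I ω b p)
    [IsManifold I ω M₁] :
    ContMDiffAt K I.tangent ω (fun q => (⟨b q, (0 : E₁)⟩ : TangentBundle I M₁)) p := by
  have : ContMDiff I I.tangent ω (zeroSection E₁ (TangentSpace I : M₁ → Type)) :=
    contMDiff_zeroSection _ _
  exact this.contMDiffAt.comp p hb

theorem contMDiffAt_prod_vec {b : M₃ → M₁} {c : M₃ → M₂} {v : M₃ → E₁} {w : M₃ → E₂} {p : M₃}
    (h1 : ContMDiffAt K I.tangent ω (fun q => (⟨b q, v q⟩ : TangentBundle I M₁)) p)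
    (h2 : ContMDiffAt K J.tangent ω (fun q => (⟨c q, w q⟩ : TangentBundle J M₂)) p) :
    ContMDiffAt K (I.prod J).tangent ω
      (fun q => (⟨(b q, c q), ((v q, w q) : E₁ × E₂)⟩ : TangentBundle (I.prod J) (M₁ × M₂))) p :=
  (contMDiff_equivTangentBundleProd_symm (n := ω)).contMDiffAt.comp p (h1.prodMk h2)

/-- All tangent coordinate changes are the identity. -/
def Transl (V : Type) [NormedAddCommGroup V] [NormedSpace ℂ V] (M : Type) [TopologicalSpace M]
    [ChartedSpace V M] [IsManifold 𝓘(ℂ, V) 1 M] : Prop :=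
  ∀ x y z : M, z ∈ (chartAt V x).source → z ∈ (chartAt V y).source →
    tangentCoordChange 𝓘(ℂ, V) x y z = ContinuousLinearMap.id ℂ V

theorem Transl.contMDiffAt_iff {V : Type} [NormedAddCommGroup V] [NormedSpace ℂ V] {M : Type}
    [TopologicalSpace M] [ChartedSpace V M] [IsManifold 𝓘(ℂ, V) 1 M] (hT : Transl V M)
    {b : M₃ → M} {v : M₃ → V} {p : M₃} :
    ContMDiffAt K 𝓘(ℂ, V).tangent ω (fun q => (⟨b q, v q⟩ : TangentBundle 𝓘(ℂ, V) M)) p ↔
      ContMDiffAt K 𝓘(ℂ, V) ω b p ∧ ContMDiffAt K 𝓘(ℂ, V) ω v p := by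
  rw [ModelWithCorners.tangent, contMDiffAt_totalSpace]
  refine and_congr_right fun hb => ?_
  have : (fun q => (trivializationAt V (TangentSpace 𝓘(ℂ, V)) (b p)
      (⟨b q, v q⟩ : TangentBundle 𝓘(ℂ, V) M)).2) =ᶠ[𝓝 p] v := by
    filter_upwards [hb.continuousAt.preimage_mem_nhds (chart_source_mem_nhds V (b p))] with q hq
    have := hT (b q) (b p) (b q) (mem_chart_source V _) hq
    exact congrArg (fun L : V →L[ℂ] V => L (v q)) this
  exact this.contMDiffAt_iff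

theorem Transl.D_chart {V : Type} [NormedAddCommGroup V] [NormedSpace ℂ V] {M : Type}
    [TopologicalSpace M] [ChartedSpace V M] [IsManifold 𝓘(ℂ, V) 1 M] (hT : Transl V M)
    {x y : M} (h : x ∈ (chartAt V y).source) :
    D 𝓘(ℂ, V) 𝓘(ℂ, V) (chartAt V y) x = ContinuousLinearMap.id ℂ V :=
  (mfderiv_chartAt_eq_tangentCoordChange h).trans (hT x y x (mem_chart_source V x) h)

theorem Transl.D_chart_symm {V : Type} [NormedAddCommGroup V] [NormedSpace ℂ V] {M : Type}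
    [TopologicalSpace M] [ChartedSpace V M] [IsManifold 𝓘(ℂ, V) 1 M] (hT : Transl V M)
    {y : M} {z : V} (h : z ∈ (chartAt V y).target) :
    D 𝓘(ℂ, V) 𝓘(ℂ, V) (chartAt V y).symm z = ContinuousLinearMap.id ℂ V := by
  have h1 : (D 𝓘(ℂ, V) 𝓘(ℂ, V) (chartAt V y) ((chartAt V y).symm z)).comp
      (D 𝓘(ℂ, V) 𝓘(ℂ, V) (chartAt V y).symm z) = ContinuousLinearMap.id ℂ V :=
    (mdifferentiable_chart (I := 𝓘(ℂ, V)) y).comp_symm_deriv h
  rwa [hT.D_chart ((chartAt V y).map_target h), ContinuousLinearMap.id_comp] at h1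

end Pool.Agent.Lib.MP_ad9325_ag
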