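import Mathlib

open scoped Manifold ContDiff

noncomputable section

namespace Pool.Agent.Lib.MP_ad9325_ag

section Model

variable (EG EH : Type) [NormedAddCommGroup EG] [NormedSpace ℂ EG]
  [NormedAddCommGroup EH] [NormedSpace ℂ EH]
  {G : Type} [Group G] [TopologicalSpace G] [ChartedSpace EG G]

/-- The adjoint action on the Lie algebra `T_1 G = EG`: the derivative at `1` of conjugation. -/
def Ad (g : G) : EG →L[ℂ] EG :=
  mfderiv 𝓘(ℂ, EG) 𝓘(ℂ, EG) (fun x : G => g * x * g⁻¹) 1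

variable {EG} (G) in
/-- The bracket of the Lie algebra `T_1 G = EG` of `G` (from left-invariant vector fields). -/
def lie (A B : EG) : EG :=
  @Bracket.bracket (GroupLieAlgebra 𝓘(ℂ, EG) G) (GroupLieAlgebra 𝓘(ℂ, EG) G) _ A B

/-- `G` is a complex Lie group and `H` a closed complex Lie subgroup. -/
structure IsModel (H : Subgroup G) [ChartedSpace EH H] : Prop where
  finG : FiniteDimensional ℂ EG
  finH : FiniteDimensional ℂ EH
  t2 : T2Space G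
  sc : SecondCountableTopology G
  lieG : LieGroup 𝓘(ℂ, EG) ω G
  lieH : LieGroup 𝓘(ℂ, EH) ω H
  closed : IsClosed (H : Set G)
  emb : Manifold.IsSmoothEmbedding 𝓘(ℂ, EH) 𝓘(ℂ, EG) ω (Subtype.val : H → G)

end Model

section Kaehler

variable (V : Type) [NormedAddCommGroup V] [NormedSpace ℂ V]
  (M : Type) [TopologicalSpace M] [ChartedSpace V M]

variable {V M} in
/-- The coefficient `g(∂_u, ∂_v)` of a field of sesquilinear forms in the chart at `p`. -/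
def inChart (g : (x : M) → TangentSpace 𝓘(ℂ, V) x →ₗ⋆[ℂ] TangentSpace 𝓘(ℂ, V) x →ₗ[ℂ] ℂ)
    (p : M) (u v : V) (y : V) : ℂ :=
  g ((chartAt V p).symm y) (mfderiv 𝓘(ℂ, V) 𝓘(ℂ, V) (chartAt V p).symm y u)
    (mfderiv 𝓘(ℂ, V) 𝓘(ℂ, V) (chartAt V p).symm y v)

variable {V M} in
/-- A smooth Hermitian metric whose imaginary part is a closed 2-form. -/
structure IsKaehlerMetric
    (g : (x : M) → TangentSpace 𝓘(ℂ, V) x →ₗ⋆[ℂ] TangentSpace 𝓘(ℂ, V) x →ₗ[ℂ] ℂ) : Prop where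
  herm : ∀ x u v, g x u v = starRingEnd ℂ (g x v u)
  pos : ∀ x u, u ≠ 0 → 0 < (g x u u).re
  smooth : ∀ p u v, ContDiffOn ℝ ∞ (inChart g p u v) (chartAt V p).target
  closed : ∀ p, ∀ y ∈ (chartAt V p).target, ∀ u v w : V,
    fderiv ℝ (fun z => (inChart g p v w z).im) y u + fderiv ℝ (fun z => (inChart g p w u z).im) y v
      + fderiv ℝ (fun z => (inChart g p u v z).im) y w = 0

/-- A compact connected complex manifold admitting a Kaehler metric. -/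
structure IsCompactKaehler : Prop where
  fin : FiniteDimensional ℂ V
  mfd : IsManifold 𝓘(ℂ, V) ω M
  t2 : T2Space M
  compact : CompactSpace M
  conn : ConnectedSpace M
  metric : ∃ g : (x : M) → TangentSpace 𝓘(ℂ, V) x →ₗ⋆[ℂ] TangentSpace 𝓘(ℂ, V) x →ₗ[ℂ] ℂ,
    IsKaehlerMetric g

end Kaehler

section Geometry

variable (EG EH : Type) [NormedAddCommGroup EG] [NormedSpace ℂ EG]
  [NormedAddCommGroup EH] [NormedSpace ℂ EH]
  {G : Type} [Group G] [TopologicalSpace G] [ChartedSpace EG G]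
  (H : Subgroup G) [ChartedSpace EH H]
  (V : Type) [NormedAddCommGroup V] [NormedSpace ℂ V]
  (M : Type) [TopologicalSpace M] [ChartedSpace V M]
  (EE : Type) [NormedAddCommGroup EE] [NormedSpace ℂ EE]
  {E : Type} [TopologicalSpace E] [ChartedSpace EE E]

variable {H M} in
/-- `π : E → M` with the right action `r` is a holomorphic principal right `H`-bundle. -/
structure IsPrincipal (π : E → M) (r : E → H → E) : Prop where
  holo_proj : ContMDiff 𝓘(ℂ, EE) 𝓘(ℂ, V) ω π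
  holo_act : ContMDiff (𝓘(ℂ, EE).prod 𝓘(ℂ, EH)) 𝓘(ℂ, EE) ω (fun p : E × H => r p.1 p.2)
  act_one : ∀ e, r e 1 = e
  act_mul : ∀ e h k, r (r e h) k = r e (h * k)
  proj_act : ∀ e h, π (r e h) = π e
  triv : ∀ x : M, ∃ (U : Set M)
    (φ : PartialDiffeomorph 𝓘(ℂ, EE) (𝓘(ℂ, V).prod 𝓘(ℂ, EH)) E (M × H) ω),
    IsOpen U ∧ x ∈ U ∧ φ.source = π ⁻¹' U ∧ φ.target = U ×ˢ Set.univ ∧
    ∀ e ∈ φ.source, (φ e).1 = π e ∧ ∀ h, (φ (r e h)).2 = (φ e).2 * h

variable {EG H EE} in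
/-- `w` is a holomorphic Cartan connection for the action `r`. -/
structure IsCartanForm [IsManifold 𝓘(ℂ, EE) ω E] (r : E → H → E)
    (w : (e : E) → TangentSpace 𝓘(ℂ, EE) e →L[ℂ] EG) : Prop where
  holo : ContMDiff 𝓘(ℂ, EE).tangent 𝓘(ℂ, EG) ω
    (fun p : TangentBundle 𝓘(ℂ, EE) E => w p.proj p.snd)
  bij : ∀ e, Function.Bijective (w e)
  equivariant : ∀ (e : E) (h : H) (v : TangentSpace 𝓘(ℂ, EE) e),
    w (r e h) (mfderiv 𝓘(ℂ, EE) 𝓘(ℂ, EE) (fun y => r y h) e v) = Ad EG ((h : G)⁻¹) (w e v)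
  fundamental : ∀ (e : E) (A : GroupLieAlgebra 𝓘(ℂ, EH) H),
    w e (mfderiv 𝓘(ℂ, EH) 𝓘(ℂ, EE) (r e) 1 A)
      = mfderiv 𝓘(ℂ, EH) 𝓘(ℂ, EG) (Subtype.val : H → G) 1 A

variable {EG EE} in
/-- `dw(X, Y)` at `e`, by the formula `X w(Y) - Y w(X) - w([X, Y])`. -/
def dForm (w : (e : E) → TangentSpace 𝓘(ℂ, EE) e →L[ℂ] EG)
    (X Y : (e : E) → TangentSpace 𝓘(ℂ, EE) e) (e : E) : EG :=
  mvfderiv 𝓘(ℂ, EE) (fun y => w y (Y y)) e (X e) - mvfderiv 𝓘(ℂ, EE) (fun y => w y (X y)) e (Y e)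
    - w e (VectorField.mlieBracket 𝓘(ℂ, EE) X Y e)

variable {EG EE} (G) in
/-- The curvature `dw + (1/2)[w, w]` vanishes: `dw(X, Y) + [w X, w Y] = 0` at `e` for all vector
fields `X`, `Y` holomorphic near `e`. -/
def IsFlat [IsManifold 𝓘(ℂ, EE) ω E]
    (w : (e : E) → TangentSpace 𝓘(ℂ, EE) e →L[ℂ] EG) : Prop :=
  ∀ (e : E) (X Y : (e : E) → TangentSpace 𝓘(ℂ, EE) e),
    ContMDiffAt 𝓘(ℂ, EE) 𝓘(ℂ, EE).tangent ω
      (fun y => (⟨y, X y⟩ : TangentBundle 𝓘(ℂ, EE) E)) e →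
    ContMDiffAt 𝓘(ℂ, EE) 𝓘(ℂ, EE).tangent ω
      (fun y => (⟨y, Y y⟩ : TangentBundle 𝓘(ℂ, EE) E)) e →
    dForm w X Y e + lie G (w e (X e)) (w e (Y e)) = 0

/-- `M` carries a holomorphic `G/H`-geometry, which is flat if `flat` holds. -/
def HasGeometry (flat : Prop) : Prop :=
  ∃ (EE : Type) (_ : NormedAddCommGroup EE) (_ : NormedSpace ℂ EE)
    (E : Type) (_ : TopologicalSpace E) (_ : ChartedSpace EE E) (_ : IsManifold 𝓘(ℂ, EE) ω E)
    (π : E → M) (r : E → H → E)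
    (w : (e : E) → TangentSpace 𝓘(ℂ, EE) e →L[ℂ] EG),
    IsPrincipal EH V EE π r ∧ IsCartanForm EH r w ∧ (flat → IsFlat G w)

end Geometry

end Pool.Agent.Lib.MP_ad9325_ag
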