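import Pool.Agent.Lib.MP_ad9325_ag.Calc
import Pool.Agent.Lib.MP_ad9325_ag.Defs

open scoped Manifold ContDiff Topology
open Set Filter

set_option linter.style.haveILetI false
set_option linter.unusedSectionVars false

noncomputable section

namespace Pool.Agent.Lib.MP_ad9325_ag

variable {EG EH : Type} [NormedAddCommGroup EG] [NormedSpace ℂ EG]
  [NormedAddCommGroup EH] [NormedSpace ℂ EH]
  {G : Type} [Group G] [TopologicalSpace G] [ChartedSpace EG G]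
  {H : Subgroup G} [ChartedSpace EH H] [LieGroup 𝓘(ℂ, EH) ω H]
  {V : Type} [NormedAddCommGroup V] [NormedSpace ℂ V]
  {M : Type} [TopologicalSpace M] [ChartedSpace V M] [IsManifold 𝓘(ℂ, V) ω M]
  {EE : Type} [NormedAddCommGroup EE] [NormedSpace ℂ EE]
  {E : Type} [TopologicalSpace E] [ChartedSpace EE E] [IsManifold 𝓘(ℂ, EE) ω E]
  {pr : E → M} {r : E → H → E}

/-- A local trivialisation. -/
structure IsTriv (pr : E → M) (r : E → H → E) (U : Set M)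
    (φ : PartialDiffeomorph 𝓘(ℂ, EE) (𝓘(ℂ, V).prod 𝓘(ℂ, EH)) E (M × H) ω) : Prop where
  op : IsOpen U
  src : φ.source = pr ⁻¹' U
  tgt : φ.target = U ×ˢ Set.univ
  eqv : ∀ e ∈ φ.source, (φ e).1 = pr e ∧ ∀ h, (φ (r e h)).2 = (φ e).2 * h

theorem IsPrincipal.exists_triv (hP : IsPrincipal EH V EE pr r) (x : M) :
    ∃ (U : Set M) (φ : PartialDiffeomorph 𝓘(ℂ, EE) (𝓘(ℂ, V).prod 𝓘(ℂ, EH)) E (M × H) ω),
      x ∈ U ∧ IsTriv pr r U φ := by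
  obtain ⟨U, φ, h1, h2, h3, h4, h5⟩ := hP.triv x
  exact ⟨U, φ, h2, h1, h3, h4, h5⟩

variable {U : Set M} {φ : PartialDiffeomorph 𝓘(ℂ, EE) (𝓘(ℂ, V).prod 𝓘(ℂ, EH)) E (M × H) ω}

/-- The horizontal lift of a constant vector field in a trivialisation. -/
def lift (φ : PartialDiffeomorph 𝓘(ℂ, EE) (𝓘(ℂ, V).prod 𝓘(ℂ, EH)) E (M × H) ω) (e : E) :
    V →L[ℂ] EE :=
  (D (𝓘(ℂ, V).prod 𝓘(ℂ, EH)) 𝓘(ℂ, EE) φ.invFun (φ e)).comp (ContinuousLinearMap.inl ℂ V EH)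

theorem mdiff_inv {z : M × H} (hz : z ∈ φ.target) :
    MDifferentiableAt (𝓘(ℂ, V).prod 𝓘(ℂ, EH)) 𝓘(ℂ, EE) φ.invFun z :=
  (φ.contMDiffOn_invFun.contMDiffAt (φ.open_target.mem_nhds hz)).mdifferentiableAt (by simp)

theorem mdiff_to {e : E} (he : e ∈ φ.source) :
    MDifferentiableAt 𝓘(ℂ, EE) (𝓘(ℂ, V).prod 𝓘(ℂ, EH)) φ.toFun e :=
  (φ.contMDiffOn_toFun.contMDiffAt (φ.open_source.mem_nhds he)).mdifferentiableAt (by simp)

theorem IsTriv.pr_inv (hT : IsTriv pr r U φ) {z : M × H} (hz : z ∈ φ.target) :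
    pr (φ.invFun z) = z.1 := by
  have h1 : φ.invFun z ∈ φ.source := φ.map_target' hz
  rw [← (hT.eqv _ h1).1]
  exact congrArg Prod.fst (φ.right_inv' hz)

theorem IsTriv.D_pr_lift (hP : IsPrincipal EH V EE pr r) (hT : IsTriv pr r U φ) {e : E}
    (he : e ∈ φ.source) (u : V) : D 𝓘(ℂ, EE) 𝓘(ℂ, V) pr e (lift φ e u) = u := by
  have hz : φ e ∈ φ.target := φ.map_source' he
  have h1 := D_comp_of_eq ((hP.holo_proj e).mdifferentiableAt (by simp)) (mdiff_inv hz)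
    (φ.left_inv' he)
  have h2 : (fun y => pr (φ.invFun y)) =ᶠ[𝓝 (φ e)] Prod.fst := by
    filter_upwards [φ.open_target.mem_nhds hz] with z hz using hT.pr_inv hz
  rw [D_congr h2, D_fst] at h1
  have h3 := congrArg (fun L : (V × EH) →L[ℂ] V => L (u, 0)) h1
  exact h3.symm

theorem contMDiffAt_lift (hT : Transl V M) {e : E} (he : e ∈ φ.source) (u : V) :
    ContMDiffAt 𝓘(ℂ, EE) 𝓘(ℂ, EE).tangent ω
      (fun y => (⟨y, lift φ y u⟩ : TangentBundle 𝓘(ℂ, EE) E)) e := by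
  have hφ : ContMDiffAt 𝓘(ℂ, EE) (𝓘(ℂ, V).prod 𝓘(ℂ, EH)) ω φ.toFun e :=
    φ.contMDiffOn_toFun.contMDiffAt (φ.open_source.mem_nhds he)
  have h1 : ContMDiffAt 𝓘(ℂ, EE) 𝓘(ℂ, V).tangent ω
      (fun y => (⟨(φ y).1, u⟩ : TangentBundle 𝓘(ℂ, V) M)) e :=
    hT.contMDiffAt_iff.2 ⟨contMDiffAt_fst.comp e hφ, contMDiffAt_const⟩
  have h2 := contMDiffAt_zero_vec (I := 𝓘(ℂ, EH)) (b := fun y => (φ y).2)
    (contMDiffAt_snd.comp e hφ)
  have h3 := contMDiffAt_tangent φ.open_target φ.contMDiffOn_invFun (contMDiffAt_prod_vec h1 h2)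
    (φ.map_source' he)
  refine h3.congr_of_eventuallyEq ?_
  filter_upwards [φ.open_source.mem_nhds he] with y hy
  exact Bundle.TotalSpace.ext (φ.left_inv' hy).symm (heq_of_eq rfl)

theorem IsTriv.inv_eq (hP : IsPrincipal EH V EE pr r) (hT : IsTriv pr r U φ) {e : E}
    (he : e ∈ φ.source) (z : H) : φ.invFun ((φ e).1, z) = r e ((φ e).2⁻¹ * z) := by
  have h1 : r e ((φ e).2⁻¹ * z) ∈ φ.source := by
    rw [hT.src] at he ⊢
    simpa [hP.proj_act] using he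
  have h2 : φ (r e ((φ e).2⁻¹ * z)) = ((φ e).1, z) := by
    refine Prod.ext ?_ ?_
    · rw [(hT.eqv _ h1).1, hP.proj_act, (hT.eqv _ he).1]
    · rw [(hT.eqv _ he).2]; simp
  rw [← h2]
  exact φ.left_inv' h1

theorem IsPrincipal.transitive (hP : IsPrincipal EH V EE pr r) {e e' : E} (h : pr e = pr e') :
    ∃ k, e' = r e k := by
  obtain ⟨U, φ, hx, hT⟩ := hP.exists_triv (pr e)
  have he : e ∈ φ.source := by rw [hT.src]; exact hx
  have he' : e' ∈ φ.source := by rw [hT.src, mem_preimage, ← h]; exact hx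
  refine ⟨(φ e).2⁻¹ * (φ e').2, ?_⟩
  rw [← hT.inv_eq hP he, (hT.eqv _ he).1, h, ← (hT.eqv _ he').1]
  exact (φ.left_inv' he').symm

theorem IsPrincipal.vertical (hP : IsPrincipal EH V EE pr r) {e : E} {v : EE}
    (hv : D 𝓘(ℂ, EE) 𝓘(ℂ, V) pr e v = 0) : ∃ A : EH, v = D 𝓘(ℂ, EH) 𝓘(ℂ, EE) (r e) 1 A := by
  obtain ⟨U, φ, hx, hT⟩ := hP.exists_triv (pr e)
  have he : e ∈ φ.source := by rw [hT.src]; exact hx
  have hz : φ e ∈ φ.target := φ.map_source' he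
  have h1 := D_comp (mdiff_inv hz) (mdiff_to he)
  have h2 : (fun y => φ.invFun (φ.toFun y)) =ᶠ[𝓝 e] fun y => y := by
    filter_upwards [φ.open_source.mem_nhds he] with y hy using φ.left_inv' hy
  rw [D_congr h2, D_id] at h1
  have h3 := D_comp (g := Prod.fst) (K := 𝓘(ℂ, V)) mdifferentiableAt_fst (mdiff_to he)
  have h4 : (fun y => (φ.toFun y).1) =ᶠ[𝓝 e] pr := by
    filter_upwards [φ.open_source.mem_nhds he] with y hy using (hT.eqv y hy).1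
  rw [D_congr h4, D_fst] at h3
  set t := D 𝓘(ℂ, EE) (𝓘(ℂ, V).prod 𝓘(ℂ, EH)) φ.toFun e v with ht
  have h5 : t.1 = 0 := by
    rw [← hv, h3]; rfl
  have h6 : v = D (𝓘(ℂ, V).prod 𝓘(ℂ, EH)) 𝓘(ℂ, EE) φ.invFun (φ e) (t.1, t.2) :=
    congrArg (fun L : EE →L[ℂ] EE => L v) h1
  rw [h5, D_prod_eq_add (mdiff_inv hz), map_zero, zero_add] at h6
  have h7 : (fun z : H => φ.invFun ((φ e).1, z)) = fun z => r e ((φ e).2⁻¹ * z) :=
    funext (hT.inv_eq hP he)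
  have sL : MDifferentiableAt 𝓘(ℂ, EH) 𝓘(ℂ, EH) (fun x : H => (φ e).2⁻¹ * x) (φ e).2 :=
    ((contMDiff_const.mul contMDiff_id : ContMDiff 𝓘(ℂ, EH) 𝓘(ℂ, EH) ω
      (fun x : H => (φ e).2⁻¹ * x)) _).mdifferentiableAt (by simp)
  have sr : MDifferentiableAt 𝓘(ℂ, EH) 𝓘(ℂ, EE) (r e) 1 :=
    ((hP.holo_act.comp (contMDiff_const.prodMk contMDiff_id) :
      ContMDiff 𝓘(ℂ, EH) 𝓘(ℂ, EE) ω (r e)) _).mdifferentiableAt (by simp)
  rw [h7, D_comp_of_eq sr sL (by simp)] at h6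
  exact ⟨_, h6⟩

theorem IsPrincipal.D_pr_act (hP : IsPrincipal EH V EE pr r) (e : E) (h : H) (v : EE) :
    D 𝓘(ℂ, EE) 𝓘(ℂ, V) pr (r e h) (D 𝓘(ℂ, EE) 𝓘(ℂ, EE) (fun y => r y h) e v) =
      D 𝓘(ℂ, EE) 𝓘(ℂ, V) pr e v := by
  have sr : MDifferentiableAt 𝓘(ℂ, EE) 𝓘(ℂ, EE) (fun y => r y h) e :=
    ((hP.holo_act.comp (contMDiff_id.prodMk contMDiff_const) :
      ContMDiff 𝓘(ℂ, EE) 𝓘(ℂ, EE) ω (fun y => r y h)) _).mdifferentiableAt (by simp)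
  rw [← ContinuousLinearMap.comp_apply,
    ← D_comp (g := pr) ((hP.holo_proj _).mdifferentiableAt (by simp)) sr]
  simp only [hP.proj_act]

end Pool.Agent.Lib.MP_ad9325_ag
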