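import Mathlib

open scoped Manifold ContDiff Topology
open Set Filter VectorField

noncomputable section

namespace Pool.Agent.Lib.MP_ad9325_ag

variable {E : Type} [NormedAddCommGroup E] [NormedSpace ℂ E] [CompleteSpace E]
  {M : Type} [TopologicalSpace M] [ChartedSpace E M] [IsManifold 𝓘(ℂ, E) ω M]
  {F : Type} [NormedAddCommGroup F] [NormedSpace ℂ F]

set_option backward.isDefEq.respectTransparency false in
theorem mvfderiv_mlieBracket {f : M → F} {x : M} {X Y : (y : M) → TangentSpace 𝓘(ℂ, E) y}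
    (hf : ContMDiffAt 𝓘(ℂ, E) 𝓘(ℂ, F) ω f x)
    (hX : MDifferentiableAt 𝓘(ℂ, E) 𝓘(ℂ, E).tangent
      (fun y => (⟨y, X y⟩ : TangentBundle 𝓘(ℂ, E) M)) x)
    (hY : MDifferentiableAt 𝓘(ℂ, E) 𝓘(ℂ, E).tangent
      (fun y => (⟨y, Y y⟩ : TangentBundle 𝓘(ℂ, E) M)) x) :
    mvfderiv 𝓘(ℂ, E) f x (mlieBracket 𝓘(ℂ, E) X Y x) =
      mvfderiv 𝓘(ℂ, E) (fun y => mvfderiv 𝓘(ℂ, E) f y (Y y)) x (X x) -
      mvfderiv 𝓘(ℂ, E) (fun y => mvfderiv 𝓘(ℂ, E) f y (X y)) x (Y x) := by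
  set φ := extChartAt 𝓘(ℂ, E) x with hφ
  have hr : range 𝓘(ℂ, E) = univ := by simp
  set f' : E → F := f ∘ φ.symm with hf'
  have hf'c : ContDiffAt ℂ ω f' (φ x) := by
    have := (contMDiffAt_iff.1 hf).2
    simpa [hr, contDiffWithinAt_univ, hf', hφ] using this
  let P (Z : (y : M) → TangentSpace 𝓘(ℂ, E) y) : E → E :=
    mpullbackWithin 𝓘(ℂ, E) 𝓘(ℂ, E) φ.symm Z (range 𝓘(ℂ, E))
  have hP : ∀ Z : (y : M) → TangentSpace 𝓘(ℂ, E) y, MDifferentiableAt 𝓘(ℂ, E) 𝓘(ℂ, E).tangent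
      (fun y => (⟨y, Z y⟩ : TangentBundle 𝓘(ℂ, E) M)) x → DifferentiableAt ℂ (P Z) (φ x) := by
    intro Z hZ
    have := (hZ.mdifferentiableWithinAt (s := univ)).differentiableWithinAt_mpullbackWithin_vectorField
    rw [hr] at this
    simpa [differentiableWithinAt_univ, P, hr, hφ] using this
  have hPx : ∀ Z : (y : M) → TangentSpace 𝓘(ℂ, E) y, P Z (φ x) = Z x := by
    intro Z
    simp only [P, mpullbackWithin_apply]
    have h1 : φ.symm (φ x) = x := extChartAt_to_inv x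
    have := mfderivWithin_extChartAt_symm_inverse_apply (I := 𝓘(ℂ, E)) (x := x) (Z x)
    refine Eq.trans ?_ this
    congr 1
    rw [h1]
  have hsymm : Tendsto φ.symm (𝓝 (φ x)) (𝓝 x) := by
    have := continuousAt_extChartAt_symm (I := 𝓘(ℂ, E)) x
    rw [ContinuousAt, extChartAt_to_inv] at this
    exact this
  have hfev : ∀ᶠ y in 𝓝 x, MDifferentiableAt 𝓘(ℂ, E) 𝓘(ℂ, F) f y := by
    have h2 : ContMDiffAt 𝓘(ℂ, E) 𝓘(ℂ, F) 1 f x := hf.of_le le_top
    have := (contMDiffAt_iff_contMDiffAt_nhds (by simp)).1 h2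
    filter_upwards [this] with y hy using hy.mdifferentiableAt one_ne_zero
  have key : ∀ Z : (y : M) → TangentSpace 𝓘(ℂ, E) y,
      (fun z => fderiv ℂ f' z (P Z z)) =ᶠ[𝓝 (φ x)]
        (fun y => mvfderiv 𝓘(ℂ, E) f y (Z y)) ∘ φ.symm := by
    intro Z
    filter_upwards [extChartAt_target_mem_nhds (I := 𝓘(ℂ, E)) x, hsymm.eventually hfev] with z hz hfz
    have hs : MDifferentiableAt 𝓘(ℂ, E) 𝓘(ℂ, E) φ.symm z := by
      have := mdifferentiableWithinAt_extChartAt_symm hz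
      rwa [hr, mdifferentiableWithinAt_univ] at this
    have h3 : fderiv ℂ f' z = (mvfderiv 𝓘(ℂ, E) f (φ.symm z)).comp
        (mfderiv 𝓘(ℂ, E) 𝓘(ℂ, E) φ.symm z) := by
      rw [← mfderiv_eq_fderiv, hf', mfderiv_comp z hfz hs]
      rfl
    have h4 := isInvertible_mfderivWithin_extChartAt_symm hz
    simp only [Function.comp_apply, h3, P, mpullbackWithin_apply, ContinuousLinearMap.comp_apply]
    congr 1
    rw [← mfderivWithin_univ, ← hr]
    exact h4.self_apply_inverse _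
  have key2 : ∀ Z : (y : M) → TangentSpace 𝓘(ℂ, E) y, MDifferentiableAt 𝓘(ℂ, E) 𝓘(ℂ, E).tangent
      (fun y => (⟨y, Z y⟩ : TangentBundle 𝓘(ℂ, E) M)) x →
      mvfderiv 𝓘(ℂ, E) (fun y => mvfderiv 𝓘(ℂ, E) f y (Z y)) x =
        fderiv ℂ (fun z => fderiv ℂ f' z (P Z z)) (φ x) := by
    intro Z hZ
    have hd : DifferentiableAt ℂ (fun z => fderiv ℂ f' z (P Z z)) (φ x) := by
      have h5 : DifferentiableAt ℂ (fderiv ℂ f') (φ x) :=
        (hf'c.fderiv_right (m := 1) (by simp)).differentiableAt one_ne_zero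
      exact h5.clm_apply (hP Z hZ)
    have hd2 : DifferentiableAt ℂ ((fun y => mvfderiv 𝓘(ℂ, E) f y (Z y)) ∘ φ.symm) (φ x) :=
      hd.congr_of_eventuallyEq (key Z).symm
    have hm : MDifferentiableAt 𝓘(ℂ, E) 𝓘(ℂ, F) (fun y => mvfderiv 𝓘(ℂ, E) f y (Z y)) x := by
      have h6 : MDifferentiableAt 𝓘(ℂ, E) 𝓘(ℂ, F)
          (((fun y => mvfderiv 𝓘(ℂ, E) f y (Z y)) ∘ φ.symm) ∘ φ) x :=
        hd2.mdifferentiableAt.comp x (mdifferentiableAt_extChartAt (mem_chart_source E x))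
      refine h6.congr_of_eventuallyEq ?_
      filter_upwards [extChartAt_source_mem_nhds (I := 𝓘(ℂ, E)) x] with y hy
      simp only [Function.comp_apply]
      rw [φ.left_inv hy]
    rw [hm.mvfderiv, (key Z).fderiv_eq, hr, fderivWithin_univ]
    simp [writtenInExtChartAt, hφ]
  have hmain := fderiv_apply_lieBracket hf'c (by simp) (hP Y hY) (hP X hX)
  rw [hPx X, hPx Y] at hmain
  rw [key2 X hX, key2 Y hY]
  refine Eq.trans ?_ hmain
  rw [(hf.mdifferentiableAt (by simp)).mvfderiv, hr, fderivWithin_univ]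
  have h7 : writtenInExtChartAt 𝓘(ℂ, E) 𝓘(ℂ, F) x f = f' := by
    simp [writtenInExtChartAt, hφ, hf']
  rw [h7]
  congr 1
  rw [← mlieBracketWithin_univ, mlieBracketWithin_apply, mfderiv_extChartAt_self]
  simp [P, hφ]
  rfl

end Pool.Agent.Lib.MP_ad9325_ag
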