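import Pool.Agent.Lib.MP_ad9325_ag.Exist
import Pool.Agent.Lib.MP_ad9325_ag.Bracket

open scoped Manifold ContDiff Topology
open Set Filter

set_option linter.style.haveILetI false
set_option linter.unusedSectionVars false

noncomputable section

namespace Pool.Agent.Lib.MP_ad9325_ag

section Formulas

variable {E : Type} [NormedAddCommGroup E] [NormedSpace ℂ E]
  {G : Type} [Group G] [TopologicalSpace G] [ChartedSpace E G] [LieGroup 𝓘(ℂ, E) ω G]
  {R : Type} [NormedRing R] [NormedAlgebra ℂ R] {val : G →* R}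

theorem D_val_Ad (hv : ContMDiff 𝓘(ℂ, E) 𝓘(ℂ, R) ω val) (g : G) (X : E) :
    D 𝓘(ℂ, E) 𝓘(ℂ, R) val 1 (Ad E g X) = val g * D 𝓘(ℂ, E) 𝓘(ℂ, R) val 1 X * val g⁻¹ := by
  rw [← ContinuousLinearMap.comp_apply, Ad_eq_D,
    ← D_comp_of_eq ((hv 1).mdifferentiableAt (by simp))
      ((contMDiff_conj g 1).mdifferentiableAt (by simp)) (by simp)]
  have : (fun y : G => val (g * y * g⁻¹)) =
      fun y => ContinuousLinearMap.mulLeftRight ℂ R (val g) (val g⁻¹) (val y) := by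
    funext y; simp
  rw [this, D_clm_comp _ ((hv 1).mdifferentiableAt (by simp))]
  rfl

theorem D_val_lie [CompleteSpace E] (hv : ContMDiff 𝓘(ℂ, E) 𝓘(ℂ, R) ω val) (X Y : E) :
    D 𝓘(ℂ, E) 𝓘(ℂ, R) val 1 (lie G X Y) =
      D 𝓘(ℂ, E) 𝓘(ℂ, R) val 1 X * D 𝓘(ℂ, E) 𝓘(ℂ, R) val 1 Y -
      D 𝓘(ℂ, E) 𝓘(ℂ, R) val 1 Y * D 𝓘(ℂ, E) 𝓘(ℂ, R) val 1 X := by
  haveI : LieGroup 𝓘(ℂ, E) (minSmoothness ℂ 3) G := LieGroup.of_le le_top
  have sL : ∀ k y : G, MDifferentiableAt 𝓘(ℂ, E) 𝓘(ℂ, E) (fun x : G => k * x) y := fun k y =>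
    ((contMDiff_const.mul contMDiff_id : ContMDiff 𝓘(ℂ, E) 𝓘(ℂ, E) ω (fun x : G => k * x))
      y).mdifferentiableAt (by simp)
  have hm : ∀ y, MDifferentiableAt 𝓘(ℂ, E) 𝓘(ℂ, R) val y := fun y =>
    (hv y).mdifferentiableAt (by simp)
  have h1 : ∀ (Z : E) (g : G), D 𝓘(ℂ, E) 𝓘(ℂ, R) val g
      (D 𝓘(ℂ, E) 𝓘(ℂ, E) (fun x : G => g * x) 1 Z) = val g * D 𝓘(ℂ, E) 𝓘(ℂ, R) val 1 Z := by
    intro Z g
    rw [← ContinuousLinearMap.comp_apply, ← D_comp_of_eq (hm g) (sL g 1) (by simp)]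
    have : (fun y : G => val (g * y)) = fun y => ContinuousLinearMap.mul ℂ R (val g) (val y) := by
      funext y; simp
    rw [this, D_clm_comp _ (hm 1)]
    rfl
  have h2 : ∀ Z : E, D 𝓘(ℂ, E) 𝓘(ℂ, E) (fun x : G => 1 * x) 1 Z = Z := by
    intro Z
    have : (fun x : G => 1 * x) = fun x => x := by funext x; simp
    rw [this, D_id]; rfl
  have h3 : ∀ Z W : E, D 𝓘(ℂ, E) 𝓘(ℂ, R) (fun g : G => D 𝓘(ℂ, E) 𝓘(ℂ, R) val g
      (D 𝓘(ℂ, E) 𝓘(ℂ, E) (fun x : G => g * x) 1 Z)) 1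
      (D 𝓘(ℂ, E) 𝓘(ℂ, E) (fun x : G => 1 * x) 1 W) =
      D 𝓘(ℂ, E) 𝓘(ℂ, R) val 1 W * D 𝓘(ℂ, E) 𝓘(ℂ, R) val 1 Z := by
    intro Z W
    have : (fun g : G => D 𝓘(ℂ, E) 𝓘(ℂ, R) val g
        (D 𝓘(ℂ, E) 𝓘(ℂ, E) (fun x : G => g * x) 1 Z)) = fun g =>
        (ContinuousLinearMap.mul ℂ R).flip (D 𝓘(ℂ, E) 𝓘(ℂ, R) val 1 Z) (val g) := by
      funext g; rw [h1]; rfl
    rw [this, D_clm_comp _ (hm 1), h2]
    rfl
  have h4 := mvfderiv_mlieBracket (hv 1)
    (mdifferentiableAt_mulInvariantVectorField (I := 𝓘(ℂ, E)) (G := G) X (g := 1))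
    (mdifferentiableAt_mulInvariantVectorField (I := 𝓘(ℂ, E)) (G := G) Y (g := 1))
  rw [← h3 Y X, ← h3 X Y]
  exact h4

variable (E) in
/-- The differential at the identity of a representation. -/
def dval (val : G →* R) : E →L[ℂ] R := D 𝓘(ℂ, E) 𝓘(ℂ, R) val 1

theorem dval_Ad (hv : ContMDiff 𝓘(ℂ, E) 𝓘(ℂ, R) ω val) (g : G) (X : E) :
    dval E val (Ad E g X) = val g * dval E val X * val g⁻¹ := D_val_Ad hv g X

theorem dval_lie [CompleteSpace E] (hv : ContMDiff 𝓘(ℂ, E) 𝓘(ℂ, R) ω val) (X Y : E) :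
    dval E val (lie G X Y) = dval E val X * dval E val Y - dval E val Y * dval E val X :=
  D_val_lie hv X Y

theorem dval_eq_zero (hv : ContMDiff 𝓘(ℂ, E) 𝓘(ℂ, R) ω val) (l : R →L[ℂ] ℂ)
    (hl : ∀ g, l (val g) = 0) (X : E) : l (dval E val X) = 0 := by
  have h3 := D_clm_comp l ((hv 1).mdifferentiableAt (by simp))
  have h4 : (fun y : G => l (val y)) = fun _ => 0 := funext hl
  rw [h4, D_const] at h3
  exact (congrArg (fun L : E →L[ℂ] ℂ => L X) h3).symm

theorem dval_incl (hv : ContMDiff 𝓘(ℂ, E) 𝓘(ℂ, R) ω val) {H : Subgroup G}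
    {EH : Type} [NormedAddCommGroup EH] [NormedSpace ℂ EH] [ChartedSpace EH H]
    (hι : ContMDiff 𝓘(ℂ, EH) 𝓘(ℂ, E) ω (Subtype.val : H → G)) (A : EH) :
    dval E val (D 𝓘(ℂ, EH) 𝓘(ℂ, E) (Subtype.val : H → G) 1 A) =
      dval EH (val.comp H.subtype) A := by
  rw [dval, ← ContinuousLinearMap.comp_apply,
    ← D_comp_of_eq ((hv 1).mdifferentiableAt (by simp)) ((hι 1).mdifferentiableAt (by simp)) rfl]
  rfl

end Formulas

section Construction

variable {E : Type} [NormedAddCommGroup E] [NormedSpace ℂ E]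
  {G : Type} [Group G] [TopologicalSpace G] [IsTopologicalGroup G]
  {R : Type} [NormedRing R] [NormedAlgebra ℂ R]

/-- The atlas of left translates of one chart at the identity. -/
@[reducible] def translCS (φ : OpenPartialHomeomorph G E) (h1 : (1 : G) ∈ φ.source) :
    ChartedSpace E G where
  atlas := range fun g : G => (Homeomorph.mulLeft g⁻¹).toOpenPartialHomeomorph.trans φ
  chartAt g := (Homeomorph.mulLeft g⁻¹).toOpenPartialHomeomorph.trans φ
  mem_chart_source g := by simpa using h1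
  chart_mem_atlas g := mem_range_self g

/-- Data making a topological group of matrices a complex Lie group. -/
structure ChartData (val : G →* R) (φ : OpenPartialHomeomorph G E) (L : R →L[ℂ] E) : Prop where
  one : (1 : G) ∈ φ.source
  cont : Continuous val
  lin : ∀ x ∈ φ.source, φ x = L (val x)
  symm : ContDiffOn ℂ ω (fun y => val (φ.symm y)) φ.target
  inv : ∃ J : R → R, ContDiff ℂ ω J ∧ ∀ g, val g⁻¹ = J (val g)

variable {val : G →* R} {φ : OpenPartialHomeomorph G E} {L : R →L[ℂ] E}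

theorem ChartData.isManifold (h : ChartData val φ L) :
    letI := translCS φ h.one; IsManifold 𝓘(ℂ, E) ω G := by
  letI := translCS φ h.one
  apply isManifold_of_contDiffOn
  rintro e e' ⟨g, rfl⟩ ⟨g', rfl⟩
  have h1 : ContDiffOn ℂ ω (fun y => L (val (g'⁻¹ * g) * val (φ.symm y))) φ.target :=
    L.contDiff.comp_contDiffOn (contDiffOn_const.mul h.symm)
  refine (h1.mono ?_).congr ?_
  · intro y hy
    simp at hy
    exact hy.1
  · intro y hy
    simp at hy
    have := h.lin _ hy.2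
    have e : (Homeomorph.mulLeft g⁻¹).symm (φ.symm y) = g * φ.symm y := by
      rw [Homeomorph.mulLeft_symm]; simp
    rw [e] at this
    simp [this, mul_assoc, e]

theorem ChartData.contMDiff_val (h : ChartData val φ L) :
    letI := translCS φ h.one; ContMDiff 𝓘(ℂ, E) 𝓘(ℂ, R) ω val := by
  letI := translCS φ h.one
  intro g
  rw [contMDiffAt_iff]
  refine ⟨h.cont.continuousAt, ?_⟩
  have h1 : ContDiffAt ℂ ω (fun y => val g * val (φ.symm y)) (φ 1) :=
    contDiffAt_const.mul (h.symm.contDiffAt (φ.open_target.mem_nhds (φ.map_source h.one)))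
  have e1 : extChartAt 𝓘(ℂ, E) g g = φ 1 := by
    change φ (g⁻¹ * g) = φ 1
    rw [inv_mul_cancel]
  have e2 : (extChartAt 𝓘(ℂ, R) (val g) ∘ val ∘ (extChartAt 𝓘(ℂ, E) g).symm) =
      fun y => val g * val (φ.symm y) := by
    funext y
    change val (g⁻¹⁻¹ * φ.symm y) = _
    rw [inv_inv, map_mul]
  rw [e1, e2]
  exact h1.contDiffWithinAt

theorem ChartData.contMDiffAt_of_val (h : ChartData val φ L)
    {E' : Type} [NormedAddCommGroup E'] [NormedSpace ℂ E'] {H' : Type} [TopologicalSpace H']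
    {N : Type} [TopologicalSpace N] [ChartedSpace H' N] {I : ModelWithCorners ℂ E' H'}
    {f : N → G} {x : N} (hc : ContinuousAt f x)
    (hf : ContMDiffAt I 𝓘(ℂ, R) ω (fun y => val (f y)) x) :
    letI := translCS φ h.one; ContMDiffAt I 𝓘(ℂ, E) ω f x := by
  letI := translCS φ h.one
  rw [contMDiffAt_iff_target]
  refine ⟨hc, ?_⟩
  have h1 : ContMDiffAt I 𝓘(ℂ, E) ω
      (fun y => L (ContinuousLinearMap.mul ℂ R (val (f x)⁻¹) (val (f y)))) x :=
    (L.contMDiff (n := ω) _).comp x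
      (((ContinuousLinearMap.mul ℂ R (val (f x)⁻¹)).contMDiff (n := ω) _).comp x hf)
  refine h1.congr_of_eventuallyEq ?_
  have h2 : ContinuousAt (fun y => (f x)⁻¹ * f y) x := continuousAt_const.mul hc
  have h3 : φ.source ∈ 𝓝 ((f x)⁻¹ * f x) := by
    rw [inv_mul_cancel]; exact φ.open_source.mem_nhds h.one
  filter_upwards [h2.preimage_mem_nhds h3] with y hy
  change φ ((f x)⁻¹ * f y) = _
  rw [h.lin _ hy]; simp

theorem ChartData.lieGroup (h : ChartData val φ L) :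
    letI := translCS φ h.one; LieGroup 𝓘(ℂ, E) ω G := by
  letI := translCS φ h.one
  haveI := h.isManifold
  have hv := h.contMDiff_val
  refine { contMDiff_mul := fun p => ?_, contMDiff_inv := fun g => ?_ }
  · refine h.contMDiffAt_of_val continuous_mul.continuousAt ?_
    have h1 : ContMDiffAt (𝓘(ℂ, E).prod 𝓘(ℂ, E)) 𝓘(ℂ, R × R) ω
        (fun y : G × G => (val y.1, val y.2)) p :=
      ((hv.comp contMDiff_fst).prodMk_space (hv.comp contMDiff_snd)) p
    have h2 := ((contDiff_mul (𝕜 := ℂ) (𝔸 := R) (n := ω)).contMDiff _).comp p h1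
    simpa [Function.comp_def] using h2
  · refine h.contMDiffAt_of_val continuous_inv.continuousAt ?_
    obtain ⟨J, hJ, hJ'⟩ := h.inv
    simp only [hJ']
    exact (hJ.contMDiff _).comp g (hv g)

theorem ChartData.L_D_val (h : ChartData val φ L) (X : E) :
    letI := translCS φ h.one; L (dval E val X) = X := by
  letI := translCS φ h.one
  haveI := h.isManifold
  have hv := h.contMDiff_val
  rw [dval, ← ContinuousLinearMap.comp_apply, ← D_clm_comp L ((hv 1).mdifferentiableAt (by simp))]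
  have : (fun y => L (val y)) =ᶠ[𝓝 (1 : G)] extChartAt 𝓘(ℂ, E) (1 : G) := by
    filter_upwards [φ.open_source.mem_nhds h.one] with y hy
    change _ = φ (1⁻¹ * y)
    rw [inv_one, one_mul, h.lin _ hy]
  rw [D_congr this]
  have h2 : D 𝓘(ℂ, E) 𝓘(ℂ, E) (extChartAt 𝓘(ℂ, E) (1 : G)) 1 = ContinuousLinearMap.id ℂ E :=
    mfderiv_extChartAt_self
  rw [h2]; rfl

end Construction

end Pool.Agent.Lib.MP_ad9325_ag
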