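import Pool.Agent.Lib.MP_ad9325_ag.Calc
import Pool.Agent.Lib.MP_ad9325_ag.Defs

open scoped Manifold ContDiff Topology
open Set Filter Bundle

set_option linter.style.haveILetI false
set_option linter.unusedSectionVars false

noncomputable section

namespace Pool.Agent.Lib.MP_ad9325_ag

section Slice

variable
  {E₁ : Type} [NormedAddCommGroup E₁] [NormedSpace ℂ E₁] {H₁ : Type} [TopologicalSpace H₁]
  {M₁ : Type} [TopologicalSpace M₁] [ChartedSpace H₁ M₁]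
  {E₂ : Type} [NormedAddCommGroup E₂] [NormedSpace ℂ E₂] {H₂ : Type} [TopologicalSpace H₂]
  {M₂ : Type} [TopologicalSpace M₂] [ChartedSpace H₂ M₂]
  {E₃ : Type} [NormedAddCommGroup E₃] [NormedSpace ℂ E₃] {H₃ : Type} [TopologicalSpace H₃]
  {M₃ : Type} [TopologicalSpace M₃] [ChartedSpace H₃ M₃]
  {E₄ : Type} [NormedAddCommGroup E₄] [NormedSpace ℂ E₄] {H₄ : Type} [TopologicalSpace H₄]
  {M₄ : Type} [TopologicalSpace M₄] [ChartedSpace H₄ M₄]
  {I : ModelWithCorners ℂ E₁ H₁} {J : ModelWithCorners ℂ E₂ H₂}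
  {K : ModelWithCorners ℂ E₃ H₃} {L : ModelWithCorners ℂ E₄ H₄}
  [IsManifold I ω M₁] [IsManifold J ω M₂] [IsManifold K ω M₃]

theorem contMDiffAt_slice {F : M₁ × M₂ → M₃} (hF : ContMDiff (I.prod J) K ω F)
    {a : M₄ → M₁} {b : M₄ → M₂} {v : M₄ → E₂} {p : M₄} {c : M₃}
    (ha : ContMDiffAt L I ω a p)
    (hZ : ContMDiffAt L J.tangent ω (fun q => (⟨b q, v q⟩ : TangentBundle J M₂)) p)
    (hc : ∀ q, F (a q, b q) = c) :
    ContMDiffAt L 𝓘(ℂ, E₃) ω (fun q => D J K (fun x => F (a q, x)) (b q) (v q)) p := by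
  have h1 := contMDiffAt_tangent' hF (contMDiffAt_prod_vec (contMDiffAt_zero_vec ha) hZ)
  rw [← contMDiffAt_const_base_iff (I := K) (x₀ := c)]
  refine h1.congr_of_eventuallyEq (Eventually.of_forall fun q => ?_)
  have h2 := D_prod_eq_add (I := I) (J := J) (K := K) (p := (a q, b q))
    ((hF (a q, b q)).mdifferentiableAt (by simp)) (0 : E₁) (v q)
  simp only [map_zero, zero_add] at h2
  refine TotalSpace.ext (hc q).symm ?_
  exact heq_of_eq h2.symm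

end Slice

section Group

variable {EG : Type} [NormedAddCommGroup EG] [NormedSpace ℂ EG]
  {G : Type} [Group G] [TopologicalSpace G] [ChartedSpace EG G] [LieGroup 𝓘(ℂ, EG) ω G]

theorem Ad_eq_D (g : G) : Ad EG g = D 𝓘(ℂ, EG) 𝓘(ℂ, EG) (fun x : G => g * x * g⁻¹) 1 := rfl

theorem contMDiff_conj (g : G) : ContMDiff 𝓘(ℂ, EG) 𝓘(ℂ, EG) ω (fun x : G => g * x * g⁻¹) :=
  (contMDiff_const.mul contMDiff_id).mul contMDiff_const

theorem Ad_mul (g k : G) : Ad EG (g * k) = (Ad EG g).comp (Ad EG k) := by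
  rw [Ad_eq_D, Ad_eq_D, Ad_eq_D, ← D_comp_of_eq ((contMDiff_conj g 1).mdifferentiableAt (by simp))
    ((contMDiff_conj k 1).mdifferentiableAt (by simp)) (by simp)]
  congr 1
  funext x; group

theorem Ad_one : Ad EG (1 : G) = ContinuousLinearMap.id ℂ EG := by
  rw [Ad_eq_D, ← D_id (I := 𝓘(ℂ, EG)) (x := (1 : G))]
  congr 1
  funext x; group

theorem Ad_bijective (g : G) : Function.Bijective (Ad EG g) := by
  refine Function.bijective_iff_has_inverse.2 ⟨Ad EG g⁻¹, fun x => ?_, fun x => ?_⟩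
  · rw [← ContinuousLinearMap.comp_apply, ← Ad_mul, inv_mul_cancel, Ad_one]; rfl
  · rw [← ContinuousLinearMap.comp_apply, ← Ad_mul, mul_inv_cancel, Ad_one]; rfl

theorem D_mulRight_bijective (h : G) :
    Function.Bijective (D 𝓘(ℂ, EG) 𝓘(ℂ, EG) (fun x : G => x * h⁻¹) h) := by
  have s1 : ∀ k y : G, MDifferentiableAt 𝓘(ℂ, EG) 𝓘(ℂ, EG) (fun x : G => x * k) y := fun k y =>
    ((contMDiff_id.mul contMDiff_const : ContMDiff 𝓘(ℂ, EG) 𝓘(ℂ, EG) ω (fun x : G => x * k))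
      y).mdifferentiableAt (by simp)
  refine Function.bijective_iff_has_inverse.2
    ⟨D 𝓘(ℂ, EG) 𝓘(ℂ, EG) (fun x : G => x * h) 1, fun x => ?_, fun x => ?_⟩
  · rw [← ContinuousLinearMap.comp_apply, ← D_comp_of_eq (s1 h 1) (s1 h⁻¹ h) (by simp)]
    have : (fun y : G => y * h⁻¹ * h) = fun y => y := by funext y; group
    rw [this, D_id]; rfl
  · rw [← ContinuousLinearMap.comp_apply, ← D_comp_of_eq (s1 h⁻¹ h) (s1 h 1) (by simp)]
    have : (fun y : G => y * h * h⁻¹) = fun y => y := by funext y; group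
    rw [this, D_id]; rfl

end Group

section Aux

variable (EG EH : Type) [NormedAddCommGroup EG] [NormedSpace ℂ EG]
  [NormedAddCommGroup EH] [NormedSpace ℂ EH]
  {G : Type} [Group G] [TopologicalSpace G] [ChartedSpace EG G]
  (H : Subgroup G) [ChartedSpace EH H]
  (V : Type) [NormedAddCommGroup V] [NormedSpace ℂ V]
  (M : Type) [TopologicalSpace M] [ChartedSpace V M]
  {EE : Type} [NormedAddCommGroup EE] [NormedSpace ℂ EE] {HE : Type} [TopologicalSpace HE]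
  (I : ModelWithCorners ℂ EE HE) (E : Type) [TopologicalSpace E] [ChartedSpace HE E]

/-- The data of a geometry whose total space has a general model. -/
def HasGeomI : Prop :=
  ∃ (_ : IsManifold I ω E) (pr : E → M) (r : E → H → E) (w : E → EE →L[ℂ] EG),
    ContMDiff I 𝓘(ℂ, V) ω pr ∧
    ContMDiff (I.prod 𝓘(ℂ, EH)) I ω (fun p : E × H => r p.1 p.2) ∧
    (∀ e, r e 1 = e) ∧ (∀ e h k, r (r e h) k = r e (h * k)) ∧ (∀ e h, pr (r e h) = pr e) ∧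
    (∀ x : M, ∃ (U : Set M)
      (φ : PartialDiffeomorph I (𝓘(ℂ, V).prod 𝓘(ℂ, EH)) E (M × H) ω),
      IsOpen U ∧ x ∈ U ∧ φ.source = pr ⁻¹' U ∧ φ.target = U ×ˢ Set.univ ∧
      ∀ e ∈ φ.source, (φ e).1 = pr e ∧ ∀ h, (φ (r e h)).2 = (φ e).2 * h) ∧
    ContMDiff I.tangent 𝓘(ℂ, EG) ω (fun p : TangentBundle I E => w p.proj p.snd) ∧
    (∀ e, Function.Bijective (w e)) ∧
    (∀ (e : E) (h : H) (v : EE),
      w (r e h) (D I I (fun y => r y h) e v) = Ad EG ((h : G)⁻¹) (w e v)) ∧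
    ∀ (e : E) (A : EH), w e (D 𝓘(ℂ, EH) I (r e) 1 A)
      = D 𝓘(ℂ, EH) 𝓘(ℂ, EG) (Subtype.val : H → G) 1 A

theorem HasGeomI.hasGeometry {E : Type} [TopologicalSpace E] [ChartedSpace EE E]
    (h : HasGeomI EG EH H V M 𝓘(ℂ, EE) E) : HasGeometry EG EH H V M False := by
  obtain ⟨hm, pr, r, w, h1, h2, h3, h4, h5, h6, h7, h8, h9, h10⟩ := h
  exact ⟨EE, inferInstance, inferInstance, E, inferInstance, inferInstance, hm, pr, r, w,
    ⟨h1, h2, h3, h4, h5, h6⟩, ⟨h7, h8, h9, h10⟩, False.elim⟩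

end Aux

section Main

variable {EG EH : Type} [NormedAddCommGroup EG] [NormedSpace ℂ EG]
  [NormedAddCommGroup EH] [NormedSpace ℂ EH]
  {G : Type} [Group G] [TopologicalSpace G] [ChartedSpace EG G] [LieGroup 𝓘(ℂ, EG) ω G]
  {H : Subgroup G} [ChartedSpace EH H] [LieGroup 𝓘(ℂ, EH) ω H]
  {V : Type} [NormedAddCommGroup V] [NormedSpace ℂ V]
  {M : Type} [TopologicalSpace M] [ChartedSpace V M] [IsManifold 𝓘(ℂ, V) ω M]

theorem hasGeomI_prod (hι : ContMDiff 𝓘(ℂ, EH) 𝓘(ℂ, EG) ω (Subtype.val : H → G))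
    (hT : Transl V M) (A : V →L[ℂ] EG)
    (hA : Function.Bijective fun p : V × EH =>
      A p.1 + D 𝓘(ℂ, EH) 𝓘(ℂ, EG) (Subtype.val : H → G) 1 p.2) :
    HasGeomI EG EH H V M (𝓘(ℂ, V).prod 𝓘(ℂ, EH)) (M × H) := by
  let β : H → EH →L[ℂ] EG := fun h =>
    D 𝓘(ℂ, EH) 𝓘(ℂ, EG) (fun x : H => (h : G)⁻¹ * (x : G)) h
  let w : M × H → (V × EH) →L[ℂ] EG := fun e =>
    (Ad EG ((e.2 : G)⁻¹)).comp (A.comp (ContinuousLinearMap.fst ℂ V EH)) +
      (β e.2).comp (ContinuousLinearMap.snd ℂ V EH)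
  have hw : ∀ e (u : V) (ξ : EH), w e (u, ξ) = Ad EG ((e.2 : G)⁻¹) (A u) + β e.2 ξ :=
    fun _ _ _ => rfl
  have sR : ∀ k y : H, MDifferentiableAt 𝓘(ℂ, EH) 𝓘(ℂ, EH) (fun x : H => x * k) y := fun k y =>
    ((contMDiff_id.mul contMDiff_const : ContMDiff 𝓘(ℂ, EH) 𝓘(ℂ, EH) ω (fun x : H => x * k))
      y).mdifferentiableAt (by simp)
  have sL : ∀ k y : H, MDifferentiableAt 𝓘(ℂ, EH) 𝓘(ℂ, EH) (fun x : H => k * x) y := fun k y =>
    ((contMDiff_const.mul contMDiff_id : ContMDiff 𝓘(ℂ, EH) 𝓘(ℂ, EH) ω (fun x : H => k * x))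
      y).mdifferentiableAt (by simp)
  have sβ : ∀ (g : G) (y : H),
      MDifferentiableAt 𝓘(ℂ, EH) 𝓘(ℂ, EG) (fun x : H => g * (x : G)) y := fun g y =>
    ((contMDiff_const.mul hι : ContMDiff 𝓘(ℂ, EH) 𝓘(ℂ, EG) ω (fun x : H => g * (x : G)))
      y).mdifferentiableAt (by simp)
  have sι : ∀ y : H, MDifferentiableAt 𝓘(ℂ, EH) 𝓘(ℂ, EG) (Subtype.val : H → G) y := fun y =>
    (hι y).mdifferentiableAt (by simp)
  have sC : ∀ g y : G, MDifferentiableAt 𝓘(ℂ, EG) 𝓘(ℂ, EG) (fun x : G => g * x * g⁻¹) y :=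
    fun g y => (contMDiff_conj g y).mdifferentiableAt (by simp)
  refine ⟨inferInstance, Prod.fst, fun e h => (e.1, e.2 * h), w, contMDiff_fst, ?_, by simp,
    by simp [mul_assoc], by simp, ?_, ?_, ?_, ?_, ?_⟩
  · exact (contMDiff_fst.comp contMDiff_fst).prodMk
      ((contMDiff_snd.comp contMDiff_fst).mul contMDiff_snd)
  · intro x
    refine ⟨univ, (Diffeomorph.refl _ _ _).toPartialDiffeomorph, isOpen_univ, mem_univ _, rfl,
      by simp; rfl, fun e _ => ⟨rfl, fun h => rfl⟩⟩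
  · intro p
    have hid := (contMDiff_equivTangentBundleProd (n := ω) (I := 𝓘(ℂ, V)) (M := M)
      (I' := 𝓘(ℂ, EH)) (M' := H)) p
    have h1 : ContMDiffAt (𝓘(ℂ, V).prod 𝓘(ℂ, EH)).tangent 𝓘(ℂ, V).tangent ω
        (fun q : TangentBundle (𝓘(ℂ, V).prod 𝓘(ℂ, EH)) (M × H) =>
          (⟨q.proj.1, (q.snd : V × EH).1⟩ : TangentBundle 𝓘(ℂ, V) M)) p :=
      contMDiffAt_fst.comp p hid
    have h2 : ContMDiffAt (𝓘(ℂ, V).prod 𝓘(ℂ, EH)).tangent 𝓘(ℂ, EH).tangent ω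
        (fun q : TangentBundle (𝓘(ℂ, V).prod 𝓘(ℂ, EH)) (M × H) =>
          (⟨q.proj.2, (q.snd : V × EH).2⟩ : TangentBundle 𝓘(ℂ, EH) H)) p :=
      contMDiffAt_snd.comp p hid
    have hu := (hT.contMDiffAt_iff.1 h1).2
    have hh : ContMDiffAt (𝓘(ℂ, V).prod 𝓘(ℂ, EH)).tangent 𝓘(ℂ, EH) ω
        (fun q : TangentBundle (𝓘(ℂ, V).prod 𝓘(ℂ, EH)) (M × H) => q.proj.2) p :=
      (contMDiffAt_proj (TangentSpace 𝓘(ℂ, EH) : H → Type)).comp p h2
    have hg : ContMDiffAt (𝓘(ℂ, V).prod 𝓘(ℂ, EH)).tangent 𝓘(ℂ, EG) ω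
        (fun q : TangentBundle (𝓘(ℂ, V).prod 𝓘(ℂ, EH)) (M × H) => ((q.proj.2 : H) : G)⁻¹) p :=
      ((hι _).comp p hh).inv
    have hAu := (A.contMDiff (n := ω) _).comp p hu
    have t1 := contMDiffAt_slice (I := 𝓘(ℂ, EG)) (J := 𝓘(ℂ, EG)) (K := 𝓘(ℂ, EG))
      (F := fun z : G × G => z.1 * z.2 * z.1⁻¹) (c := 1) (b := fun _ => (1 : G))
      ((contMDiff_fst.mul contMDiff_snd).mul contMDiff_fst.inv) hg
      ((contMDiffAt_const_base_iff (I := 𝓘(ℂ, EG)) (x₀ := (1 : G))).2 hAu) (by simp)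
    have t2 := contMDiffAt_slice (I := 𝓘(ℂ, EG)) (J := 𝓘(ℂ, EH)) (K := 𝓘(ℂ, EG))
      (F := fun z : G × H => z.1 * (z.2 : G)) (c := 1)
      (contMDiff_fst.mul (hι.comp contMDiff_snd)) hg h2 (by simp)
    exact t1.add t2
  · intro e
    have h1 : ∀ ξ : EH, Ad EG (e.2 : G) (β e.2 ξ) =
        D 𝓘(ℂ, EH) 𝓘(ℂ, EG) (Subtype.val : H → G) 1
          (D 𝓘(ℂ, EH) 𝓘(ℂ, EH) (fun x : H => x * e.2⁻¹) e.2 ξ) := by
      intro ξ
      rw [← ContinuousLinearMap.comp_apply, ← ContinuousLinearMap.comp_apply, Ad_eq_D,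
        ← D_comp_of_eq (sC _ 1) (sβ _ _) (by simp), ← D_comp_of_eq (sι 1) (sR _ _) (by simp)]
      congr 2
      funext x
      simp
    have h2 : (Ad EG (e.2 : G)) ∘ (w e) = (fun p : V × EH =>
        A p.1 + D 𝓘(ℂ, EH) 𝓘(ℂ, EG) (Subtype.val : H → G) 1 p.2) ∘
          Prod.map id (D 𝓘(ℂ, EH) 𝓘(ℂ, EH) (fun x : H => x * e.2⁻¹) e.2) := by
      funext ⟨u, ξ⟩
      simp only [Function.comp_apply, hw, map_add, h1, Prod.map, id_eq]
      rw [← ContinuousLinearMap.comp_apply, ← Ad_mul, mul_inv_cancel, Ad_one]; rfl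
    have h3 : Function.Bijective ((Ad EG (e.2 : G)) ∘ (w e)) := by
      rw [h2]
      exact hA.comp (Function.bijective_id.prodMap (D_mulRight_bijective e.2))
    exact (Function.Bijective.of_comp_iff' (Ad_bijective _) _).1 h3
  · rintro ⟨m, h⟩ k ⟨u, ξ⟩
    have h1 : D (𝓘(ℂ, V).prod 𝓘(ℂ, EH)) (𝓘(ℂ, V).prod 𝓘(ℂ, EH))
        (fun y : M × H => (y.1, y.2 * k)) (m, h) (u, ξ) =
          (u, D 𝓘(ℂ, EH) 𝓘(ℂ, EH) (fun x : H => x * k) h ξ) := by
      rw [D_prodMk (f := fun y : M × H => y.1) (g := fun y : M × H => y.2 * k)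
        mdifferentiableAt_fst ((sR k _).comp (m, h) mdifferentiableAt_snd),
        D_comp (g := fun x : H => x * k) (f := Prod.snd) (sR k _) mdifferentiableAt_snd]
      have e1 := D_fst (I := 𝓘(ℂ, V)) (J := 𝓘(ℂ, EH)) (x := (m, h))
      have e2 := D_snd (I := 𝓘(ℂ, V)) (J := 𝓘(ℂ, EH)) (x := (m, h))
      simp only [ContinuousLinearMap.prod_apply, ContinuousLinearMap.comp_apply, e2]
      rw [show (fun y : M × H => y.1) = Prod.fst from rfl, e1]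
      rfl
    rw [h1, hw, hw, map_add, ← ContinuousLinearMap.comp_apply (Ad EG (k : G)⁻¹), ← Ad_mul]
    congr 1
    · simp
    · rw [← ContinuousLinearMap.comp_apply, ← ContinuousLinearMap.comp_apply, Ad_eq_D,
        ← D_comp_of_eq (sC _ 1) (sβ _ _) (by simp), ← D_comp_of_eq (sβ _ _) (sR _ _) rfl]
      congr 2
      funext x
      simp [mul_assoc]
  · rintro ⟨m, h⟩ B
    have h1 : D 𝓘(ℂ, EH) (𝓘(ℂ, V).prod 𝓘(ℂ, EH)) (fun y : H => (m, h * y)) 1 B =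
          (0, D 𝓘(ℂ, EH) 𝓘(ℂ, EH) (fun x : H => h * x) 1 B) := by
      rw [D_prodMk mdifferentiableAt_const (sL h _), D_const]
      rfl
    rw [h1, hw, map_zero, map_zero, zero_add, ← ContinuousLinearMap.comp_apply,
      ← D_comp_of_eq (sβ _ _) (sL _ _) (by simp)]
    congr 2
    funext x
    simp

theorem hasGeometry_of_transl (hι : ContMDiff 𝓘(ℂ, EH) 𝓘(ℂ, EG) ω (Subtype.val : H → G))
    (hT : Transl V M) (A : V →L[ℂ] EG)
    (hA : Function.Bijective fun p : V × EH =>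
      A p.1 + D 𝓘(ℂ, EH) 𝓘(ℂ, EG) (Subtype.val : H → G) 1 p.2) :
    HasGeometry EG EH H V M False := by
  have h := hasGeomI_prod hι hT A hA
  rw [← modelWithCornersSelf_prod] at h
  exact @HasGeomI.hasGeometry EG EH _ _ _ _ G _ _ _ H _ V _ _ M _ _ (V × EH) _ _ (M × H) _
    (prodChartedSpace V M EH H) h

end Main

end Pool.Agent.Lib.MP_ad9325_ag
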