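import Pool.Agent.Lib.MP_ad9325_ag.Local
import Pool.Agent.Lib.MP_ad9325_ag.Bracket

open scoped Manifold ContDiff Topology
open Set Filter

set_option linter.style.haveILetI false
set_option linter.unusedSectionVars false

noncomputable section

namespace Pool.Agent.Lib.MP_ad9325_ag

theorem contMDiffAt_det {n : ℕ} {V : Type} [NormedAddCommGroup V] [NormedSpace ℂ V]
    {M : Type} [TopologicalSpace M] [ChartedSpace V M] {x : M}
    {L : M → (Fin n → ℂ) →L[ℂ] (Fin n → ℂ)}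
    (h : ∀ u, ContMDiffAt 𝓘(ℂ, V) 𝓘(ℂ, Fin n → ℂ) ω (fun m => L m u) x) :
    ContMDiffAt 𝓘(ℂ, V) 𝓘(ℂ, ℂ) ω (fun m => (L m).det) x := by
  have e : (fun m => (L m).det) = (fun A : Fin n → Fin n → ℂ => (Matrix.of A).det) ∘
      fun m i j => L m (Pi.single j 1) i := by
    funext m
    rw [ContinuousLinearMap.det, ← LinearMap.det_toMatrix']
    congr 1
  rw [e]
  have h1 : ContDiff ℂ ω (fun A : Fin n → Fin n → ℂ => (Matrix.of A).det) := by
    simp only [Matrix.det_apply', Matrix.of_apply]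
    fun_prop
  refine h1.contMDiff.contMDiffAt.comp x ?_
  rw [contMDiffAt_pi_space]
  intro i
  rw [contMDiffAt_pi_space]
  intro j
  exact contMDiffAt_pi_space.1 (h (Pi.single j 1)) i

variable {EG EH : Type} [NormedAddCommGroup EG] [NormedSpace ℂ EG] [FiniteDimensional ℂ EG]
  [NormedAddCommGroup EH] [NormedSpace ℂ EH]
  {G : Type} [Group G] [TopologicalSpace G] [ChartedSpace EG G]
  {H : Subgroup G} [ChartedSpace EH H] [LieGroup 𝓘(ℂ, EH) ω H]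
  {n : ℕ} {M : Type} [TopologicalSpace M] [ChartedSpace (Fin n → ℂ) M]
  [IsManifold 𝓘(ℂ, Fin n → ℂ) ω M] [CompactSpace M] [ConnectedSpace M]

theorem not_hasGeometry_flat (hT : Transl (Fin n → ℂ) M) (P : EG →L[ℂ] (Fin n → ℂ))
    (hPs : Function.Surjective P)
    (hPh : ∀ A : EH, P (D 𝓘(ℂ, EH) 𝓘(ℂ, EG) (Subtype.val : H → G) 1 A) = 0)
    (l : (Fin n → ℂ) →L[ℂ] ℂ) (k : ℕ)
    (hAd : ∀ h : H, ∃ (ρ : (Fin n → ℂ) →L[ℂ] (Fin n → ℂ)) (χ : ℂ),
      (∀ X, P (Ad EG ((h : G)⁻¹) X) = ρ (P X)) ∧ (∀ v, l (ρ v) = χ * l v) ∧ ρ.det = χ ^ (k + 1))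
    (a b : Fin n → ℂ) (ha : l a = 0) (hb : l b = 0)
    (hbr : ∀ X Y : EG, P X = a → P Y = b → l (P (lie G X Y)) ≠ 0) :
    ¬ HasGeometry EG EH H (Fin n → ℂ) M True := by
  rintro ⟨EE, _, _, E, _, _, _, pr, r, w₀, hP, hC, hF⟩
  replace hF := hF trivial
  let w : E → EE →L[ℂ] EG := w₀
  have wsurj : ∀ e, Function.Surjective (w e) := fun e => (hC.bij e).2
  have winj : ∀ e, Function.Injective (w e) := fun e => (hC.bij e).1
  have weq : ∀ e h v, w (r e h) (D 𝓘(ℂ, EE) 𝓘(ℂ, EE) (fun y => r y h) e v) =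
      Ad EG ((h : G)⁻¹) (w e v) := hC.equivariant
  have wfund : ∀ e (A : EH), w e (D 𝓘(ℂ, EH) 𝓘(ℂ, EE) (r e) 1 A) =
      D 𝓘(ℂ, EH) 𝓘(ℂ, EG) (Subtype.val : H → G) 1 A := hC.fundamental
  -- right inverses of the differential of the projection
  have hσ : ∀ e : E, ∃ σ : (Fin n → ℂ) →L[ℂ] EE,
      ∀ u, D 𝓘(ℂ, EE) 𝓘(ℂ, Fin n → ℂ) pr e (σ u) = u := by
    intro e
    obtain ⟨U, φ, hx, hU⟩ := hP.exists_triv (pr e)
    exact ⟨lift φ e, hU.D_pr_lift hP (by rw [hU.src]; exact hx)⟩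
  choose σ hσ using hσ
  let c : E → (Fin n → ℂ) →L[ℂ] (Fin n → ℂ) := fun e => P.comp ((w e).comp (σ e))
  have hc : ∀ e v, P (w e v) = c e (D 𝓘(ℂ, EE) 𝓘(ℂ, Fin n → ℂ) pr e v) := by
    intro e v
    obtain ⟨A, hA⟩ := hP.vertical (e := e) (v := v - σ e (D 𝓘(ℂ, EE) 𝓘(ℂ, Fin n → ℂ) pr e v))
      (by rw [map_sub, hσ, sub_self])
    have := hPh A
    rw [← wfund e, ← hA, map_sub, map_sub, sub_eq_zero] at this
    exact this
  have csurj : ∀ e, Function.Surjective (c e) := by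
    intro e y
    obtain ⟨X, rfl⟩ := hPs y
    obtain ⟨v, rfl⟩ := wsurj e X
    exact ⟨_, (hc e v).symm⟩
  have cdet : ∀ e, (c e).det ≠ 0 := by
    intro e h0
    have h1 := LinearMap.bot_lt_ker_of_det_eq_zero h0
    have h2 : Function.Injective (c e : (Fin n → ℂ) →ₗ[ℂ] (Fin n → ℂ)) :=
      LinearMap.injective_iff_surjective.2 (csurj e)
    exact h1.ne' (LinearMap.ker_eq_bot.2 h2)
  let Φ : (Fin n → ℂ) → (Fin n → ℂ) → E → ℂ := fun u v e =>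
    l (c e u) ^ k * l (c e v) / (c e).det
  have Φinv : ∀ u v e h, Φ u v (r e h) = Φ u v e := by
    intro u v e h
    obtain ⟨ρ, χ, h1, h2, h3⟩ := hAd h
    have h4 : c (r e h) = ρ.comp (c e) := by
      ext1 u
      have h5 := hc (r e h) (D 𝓘(ℂ, EE) 𝓘(ℂ, EE) (fun y => r y h) e (σ e u))
      rw [hP.D_pr_act, hσ, weq, h1] at h5
      exact h5.symm
    have h5 : (c (r e h)).det = χ ^ (k + 1) * (c e).det := by
      rw [h4, ← h3]
      exact LinearMap.det_comp (ρ : (Fin n → ℂ) →ₗ[ℂ] (Fin n → ℂ)) (c e)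
    have h6 : χ ≠ 0 := by
      intro h0
      apply cdet (r e h)
      rw [h5, h0]; simp
    have h7 := cdet e
    simp only [Φ, h5]
    simp only [h4, ContinuousLinearMap.comp_apply, h2]
    field_simp
    ring
  have prsurj : Function.Surjective pr := by
    intro x
    obtain ⟨U, φ, hx, hU⟩ := hP.exists_triv x
    exact ⟨φ.invFun (x, 1), hU.pr_inv (by rw [hU.tgt]; exact ⟨hx, trivial⟩)⟩
  choose s hs using prsurj
  have Φs : ∀ u v e, Φ u v (s (pr e)) = Φ u v e := by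
    intro u v e
    obtain ⟨h, hh⟩ := hP.transitive (hs (pr e)).symm
    rw [hh, Φinv]
  have wlift : ∀ {U : Set M}
      {φ : PartialDiffeomorph 𝓘(ℂ, EE) (𝓘(ℂ, Fin n → ℂ).prod 𝓘(ℂ, EH)) E (M × H) ω}
      {e : E}, e ∈ φ.source → ∀ u,
      ContMDiffAt 𝓘(ℂ, EE) 𝓘(ℂ, EG) ω (fun y => w y (lift φ y u)) e := by
    intro U φ e he u
    exact (hC.holo _).comp e (contMDiffAt_lift hT he u)
  have Ψdiff : ∀ u v, MDifferentiable 𝓘(ℂ, Fin n → ℂ) 𝓘(ℂ, ℂ) (fun m => Φ u v (s m)) := by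
    intro u v x
    obtain ⟨U, φ, hx, hU⟩ := hP.exists_triv x
    have hxt : ∀ m ∈ U, (m, (1 : H)) ∈ φ.target := fun m hm => by rw [hU.tgt]; exact ⟨hm, trivial⟩
    let t : M → E := fun m => φ.invFun (m, 1)
    have ht : ContMDiffAt 𝓘(ℂ, Fin n → ℂ) 𝓘(ℂ, EE) ω t x :=
      (φ.contMDiffOn_invFun.contMDiffAt (φ.open_target.mem_nhds (hxt x hx))).comp x
        (contMDiffAt_id.prodMk contMDiffAt_const)
    have h1 : ∀ u, ContMDiffAt 𝓘(ℂ, Fin n → ℂ) 𝓘(ℂ, Fin n → ℂ) ω (fun m => c (t m) u) x := by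
      intro u
      have h2 := (P.contMDiff (n := ω) _).comp x
        ((wlift (U := U) (φ.map_target' (hxt x hx)) u).comp x ht)
      refine h2.congr_of_eventuallyEq ?_
      filter_upwards [hU.op.mem_nhds hx] with m hm
      simp only [Function.comp_apply]
      rw [hc, hU.D_pr_lift hP (φ.map_target' (hxt m hm))]
    have h2 : ∀ u, ContMDiffAt 𝓘(ℂ, Fin n → ℂ) 𝓘(ℂ, ℂ) ω (fun m => l (c (t m) u)) x :=
      fun u => (l.contMDiff (n := ω) _).comp x (h1 u)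
    have h3 : ContMDiffAt 𝓘(ℂ, Fin n → ℂ) 𝓘(ℂ, ℂ) ω (fun m => Φ u v (t m)) x :=
      (((h2 u).pow k).mul (h2 v)).div₀ (contMDiffAt_det h1) (cdet _)
    refine (h3.congr_of_eventuallyEq ?_).mdifferentiableAt (by simp)
    filter_upwards [hU.op.mem_nhds hx] with m hm
    rw [← Φs u v (t m), hU.pr_inv (hxt m hm)]
  have Φconst : ∀ u v e e', Φ u v e = Φ u v e' := by
    intro u v e e'
    rw [← Φs u v e, ← Φs u v e']
    exact (Ψdiff u v).apply_eq_of_compactSpace (pr e) (pr e')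
  obtain ⟨x₀⟩ : Nonempty M := inferInstance
  set e₀ := s x₀ with he₀
  haveI : FiniteDimensional ℂ EE :=
    FiniteDimensional.of_injective (w e₀ : EE →ₗ[ℂ] EG) (winj e₀)
  haveI : CompleteSpace EE := FiniteDimensional.complete ℂ EE
  obtain ⟨u₀, hu₀⟩ : ∃ u₀, l (c e₀ u₀) ≠ 0 := by
    obtain ⟨X, hX⟩ := hPs a
    obtain ⟨Y, hY⟩ := hPs b
    obtain ⟨u, hu⟩ := csurj e₀ (P (lie G X Y))
    exact ⟨u, by rw [hu]; exact hbr X Y hX hY⟩
  have key : ∀ e v, l (c e₀ v) = 0 → l (c e v) = 0 := by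
    intro e v hv
    have h1 := Φconst u₀ u₀ e e₀
    have h2 := Φconst u₀ v e e₀
    have h3 : l (c e u₀) ≠ 0 := by
      intro h0
      simp only [Φ, h0, mul_zero, zero_div] at h1
      exact (div_ne_zero (mul_ne_zero (pow_ne_zero k hu₀) hu₀) (cdet e₀)) h1.symm
    simp only [Φ, hv, mul_zero, zero_div, div_eq_zero_iff, mul_eq_zero, cdet e, or_false,
      pow_ne_zero k h3, false_or] at h2
    exact h2
  obtain ⟨a', ha'⟩ := csurj e₀ a
  obtain ⟨b', hb'⟩ := csurj e₀ b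
  obtain ⟨U, φ, hx, hU⟩ := hP.exists_triv (pr e₀)
  have he : e₀ ∈ φ.source := by rw [hU.src]; exact hx
  have flat := hF e₀ (fun y => lift φ y a') (fun y => lift φ y b')
    (contMDiffAt_lift hT he a') (contMDiffAt_lift hT he b')
  let θ : EG →L[ℂ] ℂ := l.comp P
  have t1 : ∀ u, l (c e₀ u) = 0 → ∀ v : EE,
      θ (D 𝓘(ℂ, EE) 𝓘(ℂ, EG) (fun y => w y (lift φ y u)) e₀ v) = 0 := by
    intro u hu v
    rw [← ContinuousLinearMap.comp_apply,
      ← D_clm_comp θ ((wlift (U := U) he u).mdifferentiableAt (by simp))]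
    have : (fun y => θ (w y (lift φ y u))) =ᶠ[𝓝 e₀] fun _ => (0 : ℂ) := by
      filter_upwards [φ.open_source.mem_nhds he] with y hy
      change l (P (w y (lift φ y u))) = 0
      rw [hc, hU.D_pr_lift hP hy]
      exact key y u hu
    rw [D_congr this, D_const]; rfl
  let f : E → (Fin n → ℂ) := fun y => chartAt (Fin n → ℂ) (pr e₀) (pr y)
  have hnb : ∀ᶠ y in 𝓝 e₀, pr y ∈ (chartAt (Fin n → ℂ) (pr e₀)).source :=
    hP.holo_proj.continuous.continuousAt.preimage_mem_nhds (chart_source_mem_nhds _ _)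
  have hDf : ∀ y, pr y ∈ (chartAt (Fin n → ℂ) (pr e₀)).source →
      D 𝓘(ℂ, EE) 𝓘(ℂ, Fin n → ℂ) f y = D 𝓘(ℂ, EE) 𝓘(ℂ, Fin n → ℂ) pr y := by
    intro y hy
    rw [D_comp (mdifferentiableAt_atlas (I := 𝓘(ℂ, Fin n → ℂ)) (chart_mem_atlas _ _) hy)
      ((hP.holo_proj y).mdifferentiableAt (by simp)), hT.D_chart hy, ContinuousLinearMap.id_comp]
  have hf : ContMDiffAt 𝓘(ℂ, EE) 𝓘(ℂ, Fin n → ℂ) ω f e₀ :=
    (contMDiffOn_chart.contMDiffAt (chart_source_mem_nhds _ _)).comp e₀ (hP.holo_proj e₀)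
  have t2 : ∀ u, ∀ v : EE, D 𝓘(ℂ, EE) 𝓘(ℂ, Fin n → ℂ)
      (fun y => D 𝓘(ℂ, EE) 𝓘(ℂ, Fin n → ℂ) f y (lift φ y u)) e₀ v = 0 := by
    intro u v
    have : (fun y => D 𝓘(ℂ, EE) 𝓘(ℂ, Fin n → ℂ) f y (lift φ y u)) =ᶠ[𝓝 e₀] fun _ => u := by
      filter_upwards [φ.open_source.mem_nhds he, hnb] with y hy hy'
      rw [hDf y hy', hU.D_pr_lift hP hy]
    rw [D_congr this, D_const]; rfl
  let Z : EE := VectorField.mlieBracket 𝓘(ℂ, EE) (fun y => lift φ y a') (fun y => lift φ y b') e₀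
  have t3 : D 𝓘(ℂ, EE) 𝓘(ℂ, Fin n → ℂ) f e₀ Z = _ - _ :=
    mvfderiv_mlieBracket hf ((contMDiffAt_lift hT he a').mdifferentiableAt (by simp))
      ((contMDiffAt_lift hT he b').mdifferentiableAt (by simp))
  have t4 : D 𝓘(ℂ, EE) 𝓘(ℂ, Fin n → ℂ) pr e₀ Z = 0 := by
    rw [← hDf e₀ (mem_chart_source _ _), t3]
    exact sub_eq_zero.2 ((t2 b' _).trans (t2 a' _).symm)
  have t5 : θ (w e₀ Z) = 0 := by
    change l (P (w e₀ Z)) = 0
    rw [hc, t4]; simp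
  have flat' : D 𝓘(ℂ, EE) 𝓘(ℂ, EG) (fun y => w y (lift φ y b')) e₀ (lift φ e₀ a') -
      D 𝓘(ℂ, EE) 𝓘(ℂ, EG) (fun y => w y (lift φ y a')) e₀ (lift φ e₀ b') - w e₀ Z +
      lie G (w e₀ (lift φ e₀ a')) (w e₀ (lift φ e₀ b')) = 0 := flat
  have t6 := congrArg θ flat'
  rw [map_add, map_sub, map_sub, t1 b' (by rw [hb', hb]), t1 a' (by rw [ha', ha]), t5,
    map_zero] at t6
  simp only [sub_self, zero_add] at t6
  refine hbr _ _ ?_ ?_ t6
  · rw [hc, hU.D_pr_lift hP he, ha']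
  · rw [hc, hU.D_pr_lift hP he, hb']

end Pool.Agent.Lib.MP_ad9325_ag
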