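import Pool.Agent.Lib.MP_ad9325_ag.Calc
import Pool.Agent.Lib.MP_ad9325_ag.Defs

open scoped Manifold ContDiff Topology
open Set Filter Bundle

set_option linter.style.haveILetI false
set_option linter.unusedSectionVars false

noncomputable section

namespace Pool.Agent.Lib.MP_ad9325_ag

section General

variable {V : Type} [NormedAddCommGroup V] [NormedSpace ℂ V] {Λ : AddSubgroup V}

theorem mk_isLocalHomeomorph (hΛ : IsDiscrete (Λ : Set V)) :
    IsLocalHomeomorph (QuotientAddGroup.mk : V → V ⧸ Λ) :=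
  (Λ.isAddQuotientCoveringMap_of_comm hΛ).isCoveringMap.isLocalHomeomorph

/-- The charts of a torus: local inverses of the quotient map. -/
@[reducible] def torusCS (hΛ : IsDiscrete (Λ : Set V)) : ChartedSpace V (V ⧸ Λ) where
  atlas := range fun p : V ⧸ Λ => (mk_isLocalHomeomorph hΛ).localInverseAt p.out
  chartAt p := (mk_isLocalHomeomorph hΛ).localInverseAt p.out
  mem_chart_source p := by
    have := (mk_isLocalHomeomorph hΛ).apply_self_mem_localInverseAt_source (x := p.out)
    rwa [QuotientAddGroup.out_eq'] at this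
  chart_mem_atlas p := mem_range_self p

theorem torus_transition (hΛ : IsDiscrete (Λ : Set V)) (b y₀ : V)
    (h : (y₀ : V ⧸ Λ) ∈ ((mk_isLocalHomeomorph hΛ).localInverseAt b).source) :
    (fun y : V => (mk_isLocalHomeomorph hΛ).localInverseAt b (y : V ⧸ Λ)) =ᶠ[𝓝 y₀]
      fun y => y + ((mk_isLocalHomeomorph hΛ).localInverseAt b (y₀ : V ⧸ Λ) - y₀) := by
  set e := (mk_isLocalHomeomorph hΛ).localInverseAt b with he
  have hq : Continuous (QuotientAddGroup.mk : V → V ⧸ Λ) := QuotientAddGroup.continuous_mk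
  have hc : ContinuousAt (fun y : V => e (y : V ⧸ Λ) - y) y₀ :=
    (ContinuousAt.comp (f := fun y : V => (y : V ⧸ Λ)) (e.continuousAt h) hq.continuousAt).sub
      continuousAt_id
  have hev : ∀ᶠ y : V in 𝓝 y₀, (y : V ⧸ Λ) ∈ e.source :=
    hq.continuousAt.preimage_mem_nhds (e.open_source.mem_nhds h)
  have hmem : ∀ y : V, (y : V ⧸ Λ) ∈ e.source → e (y : V ⧸ Λ) - y ∈ (Λ : Set V) := by
    intro y hy
    have := (mk_isLocalHomeomorph hΛ).apply_localInverseAt_of_mem hy
    have h2 := QuotientAddGroup.eq.1 this.symm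
    rwa [neg_add_eq_sub] at h2
  have ht : Tendsto (fun y : V => e (y : V ⧸ Λ) - y) (𝓝 y₀) (𝓝[(Λ : Set V)] (e (y₀ : V ⧸ Λ) - y₀)) :=
    tendsto_nhdsWithin_iff.2 ⟨hc, hev.mono hmem⟩
  rw [hΛ.nhdsWithin _ (hmem y₀ h), tendsto_pure] at ht
  filter_upwards [ht] with y hy
  rw [← hy]; abel

theorem torus_isManifold (hΛ : IsDiscrete (Λ : Set V)) :
    letI := torusCS hΛ; IsManifold 𝓘(ℂ, V) ω (V ⧸ Λ) := by
  letI := torusCS hΛ
  apply isManifold_of_contDiffOn
  rintro e e' ⟨p, rfl⟩ ⟨p', rfl⟩ y hy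
  simp only [modelWithCornersSelf_coe, modelWithCornersSelf_coe_symm, preimage_id, range_id,
    inter_univ, OpenPartialHomeomorph.trans_source, OpenPartialHomeomorph.symm_source,
    mem_inter_iff, mem_preimage, IsLocalHomeomorph.localInverseAt_symm] at hy
  apply ContDiffAt.contDiffWithinAt
  have := torus_transition hΛ p'.out y hy.2
  refine ContDiffAt.congr_of_eventuallyEq (contDiffAt_id.add contDiffAt_const)
    (EventuallyEq.trans ?_ this)
  refine Eventually.of_forall fun z => ?_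
  simp

theorem torus_transl (hΛ : IsDiscrete (Λ : Set V)) :
    letI := torusCS hΛ
    haveI : IsManifold 𝓘(ℂ, V) ω (V ⧸ Λ) := torus_isManifold hΛ
    Transl V (V ⧸ Λ) := by
  letI := torusCS hΛ
  haveI : IsManifold 𝓘(ℂ, V) ω (V ⧸ Λ) := torus_isManifold hΛ
  intro x y z hx hy
  rw [tangentCoordChange_def]
  have h1 : ((chartAt V x z : V) : V ⧸ Λ) = z :=
    (mk_isLocalHomeomorph hΛ).apply_localInverseAt_of_mem hx
  have := torus_transition hΛ y.out (chartAt V x z) (by rw [h1]; exact hy)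
  have h2 : (extChartAt 𝓘(ℂ, V) y ∘ (extChartAt 𝓘(ℂ, V) x).symm) =
      fun w : V => (mk_isLocalHomeomorph hΛ).localInverseAt y.out (w : V ⧸ Λ) := by
    funext w
    have : (chartAt V x).symm w = (w : V ⧸ Λ) :=
      congrFun ((mk_isLocalHomeomorph hΛ).localInverseAt_symm x.out) w
    simp only [extChartAt_coe, extChartAt_coe_symm, modelWithCornersSelf_coe,
      modelWithCornersSelf_coe_symm, Function.comp_apply, id_eq, this]
    rfl
  rw [h2]
  simp only [modelWithCornersSelf_coe, range_id, fderivWithin_univ, extChartAt_coe,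
    Function.comp_apply, id_eq]
  rw [this.fderiv_eq, fderiv_add_const, fderiv_fun_id]

end General

section Gauss

/-- The lattice of vectors with Gaussian integer coordinates. -/
def gaussLat (n : ℕ) : AddSubgroup (Fin n → ℂ) where
  carrier := {z | ∀ i, ∃ a b : ℤ, z i = a + b * Complex.I}
  zero_mem' i := ⟨0, 0, by simp⟩
  add_mem' := by
    intro z w hz hw i
    obtain ⟨a, b, h⟩ := hz i
    obtain ⟨c, d, h'⟩ := hw i
    exact ⟨a + c, b + d, by simp [h, h']; ring⟩
  neg_mem' := by
    intro z hz i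
    obtain ⟨a, b, h⟩ := hz i
    exact ⟨-a, -b, by simp [h]; ring⟩

theorem gaussLat_small {n : ℕ} {z : Fin n → ℂ} (hz : z ∈ gaussLat n) (h : ‖z‖ < 1) : z = 0 := by
  funext i
  obtain ⟨a, b, hab⟩ := hz i
  have h1 : ‖z i‖ < 1 := (norm_le_pi_norm z i).trans_lt h
  have ha : |(a : ℝ)| < 1 := by
    have := (Complex.abs_re_le_norm (z i)).trans_lt h1
    simpa [hab] using this
  have hb : |(b : ℝ)| < 1 := by
    have := (Complex.abs_im_le_norm (z i)).trans_lt h1
    simpa [hab] using this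
  have ha' : a = 0 := by
    have : |a| < 1 := by exact_mod_cast ha
    exact Int.abs_lt_one_iff.1 this
  have hb' : b = 0 := by
    have : |b| < 1 := by exact_mod_cast hb
    exact Int.abs_lt_one_iff.1 this
  simp [hab, ha', hb']

theorem gaussLat_isDiscrete (n : ℕ) : IsDiscrete (gaussLat n : Set (Fin n → ℂ)) := by
  rw [isDiscrete_iff_forall_mem_exists_isOpen]
  intro y hy
  refine ⟨Metric.ball y 1, Metric.isOpen_ball, ?_⟩
  ext z
  simp only [mem_inter_iff, Metric.mem_ball, mem_singleton_iff]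
  constructor
  · rintro ⟨h1, h2⟩
    have := gaussLat_small ((gaussLat n).sub_mem h2 hy) (by rwa [← dist_eq_norm])
    exact sub_eq_zero.1 this
  · rintro rfl
    exact ⟨by simp, hy⟩

theorem gaussLat_compact (n : ℕ) : CompactSpace ((Fin n → ℂ) ⧸ gaussLat n) := by
  have hq : Continuous (QuotientAddGroup.mk : (Fin n → ℂ) → (Fin n → ℂ) ⧸ gaussLat n) :=
    QuotientAddGroup.continuous_mk
  refine ⟨?_⟩
  have : (univ : Set ((Fin n → ℂ) ⧸ gaussLat n)) =
      QuotientAddGroup.mk '' Metric.closedBall (0 : Fin n → ℂ) 1 := by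
    symm
    rw [eq_univ_iff_forall]
    intro p
    obtain ⟨z, rfl⟩ := QuotientAddGroup.mk_surjective p
    let w : Fin n → ℂ := fun i => (round (z i).re : ℤ) + (round (z i).im : ℤ) * Complex.I
    have hw : w ∈ gaussLat n := fun i => ⟨_, _, rfl⟩
    refine ⟨z - w, ?_, ?_⟩
    · rw [mem_closedBall_zero_iff, pi_norm_le_iff_of_nonneg zero_le_one]
      intro i
      refine (Complex.norm_le_abs_re_add_abs_im _).trans ?_
      have h1 := abs_sub_round (z i).re
      have h2 := abs_sub_round (z i).im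
      have e1 : ((z - w) i).re = (z i).re - round (z i).re := by simp [w]
      have e2 : ((z - w) i).im = (z i).im - round (z i).im := by simp [w]
      rw [e1, e2]; linarith
    · rw [QuotientAddGroup.eq]
      simpa using hw
  rw [this]
  exact (isCompact_closedBall _ _).image hq

end Gauss

section Kaehler

variable {n : ℕ} {M : Type} [TopologicalSpace M] [ChartedSpace (Fin n → ℂ) M]

/-- The standard Hermitian form. -/
def stdHerm (n : ℕ) : (Fin n → ℂ) →ₗ⋆[ℂ] (Fin n → ℂ) →ₗ[ℂ] ℂ :=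
  LinearMap.mk₂'ₛₗ (starRingEnd ℂ) (RingHom.id ℂ) (fun u v => ∑ i, starRingEnd ℂ (u i) * v i)
    (fun u u' v => by simp [add_mul, Finset.sum_add_distrib])
    (fun c u v => by simp [Finset.mul_sum, mul_assoc])
    (fun u v v' => by simp [mul_add, Finset.sum_add_distrib])
    (fun c u v => by simp [Finset.mul_sum, mul_left_comm])

theorem stdHerm_apply (u v : Fin n → ℂ) :
    stdHerm n u v = ∑ i, starRingEnd ℂ (u i) * v i := rfl

theorem stdHerm_symm (u v : Fin n → ℂ) : stdHerm n u v = starRingEnd ℂ (stdHerm n v u) := by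
  simp [stdHerm_apply, mul_comm]

theorem stdHerm_pos (u : Fin n → ℂ) (hu : u ≠ 0) : 0 < (stdHerm n u u).re := by
  rw [stdHerm_apply, Complex.re_sum]
  have hu' : ∃ i, u i ≠ 0 := by
    by_contra hc
    push Not at hc
    exact hu (funext hc)
  obtain ⟨i, hi⟩ := hu'
  have e : ∀ j, (starRingEnd ℂ (u j) * u j).re = Complex.normSq (u j) := by
    intro j
    rw [← Complex.normSq_eq_conj_mul_self]; simp
  simp only [e]
  exact Finset.sum_pos' (fun j _ => Complex.normSq_nonneg _)
    ⟨i, Finset.mem_univ _, Complex.normSq_pos.2 hi⟩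

theorem Transl.kaehler [IsManifold 𝓘(ℂ, Fin n → ℂ) 1 M] (hT : Transl (Fin n → ℂ) M) :
    IsKaehlerMetric (V := Fin n → ℂ) (M := M) (fun _ => stdHerm n) := by
  have key : ∀ (p : M) (u v : Fin n → ℂ), ∀ y ∈ (chartAt (Fin n → ℂ) p).target,
      inChart (V := Fin n → ℂ) (M := M) (fun _ => stdHerm n) p u v y = stdHerm n u v := by
    intro p u v y hy
    have h := hT.D_chart_symm hy
    change stdHerm n (D 𝓘(ℂ, Fin n → ℂ) 𝓘(ℂ, Fin n → ℂ) (chartAt (Fin n → ℂ) p).symm y u)
      (D 𝓘(ℂ, Fin n → ℂ) 𝓘(ℂ, Fin n → ℂ) (chartAt (Fin n → ℂ) p).symm y v) = _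
    rw [h]; rfl
  have key2 : ∀ (p : M) (u v : Fin n → ℂ), ∀ y ∈ (chartAt (Fin n → ℂ) p).target,
      fderiv ℝ (fun z => (inChart (V := Fin n → ℂ) (M := M) (fun _ => stdHerm n) p u v z).im) y
        = 0 := by
    intro p u v y hy
    have : (fun z => (inChart (V := Fin n → ℂ) (M := M) (fun _ => stdHerm n) p u v z).im) =ᶠ[𝓝 y]
        fun _ => (stdHerm n u v).im := by
      filter_upwards [(chartAt (Fin n → ℂ) p).open_target.mem_nhds hy] with z hz
      rw [key p u v z hz]
    rw [this.fderiv_eq]; simp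
  refine ⟨?_, ?_, ?_, ?_⟩
  · exact fun x u v => stdHerm_symm u v
  · exact fun x u hu => stdHerm_pos u hu
  · intro p u v
    exact contDiffOn_const.congr (key p u v)
  · intro p y hy u v w
    rw [key2 p v w y hy, key2 p w u y hy, key2 p u v y hy]; simp

end Kaehler

theorem exists_torus (n : ℕ) : ∃ (M : Type) (_ : TopologicalSpace M)
    (_ : ChartedSpace (Fin n → ℂ) M) (_ : IsManifold 𝓘(ℂ, Fin n → ℂ) ω M),
    IsCompactKaehler (Fin n → ℂ) M ∧ Transl (Fin n → ℂ) M := by
  have hd := gaussLat_isDiscrete n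
  letI := torusCS hd
  haveI := torus_isManifold hd
  have hT := torus_transl hd
  haveI : DiscreteTopology (gaussLat n) := hd.1
  haveI : IsClosed (gaussLat n : Set (Fin n → ℂ)) := AddSubgroup.isClosed_of_discrete
  refine ⟨(Fin n → ℂ) ⧸ gaussLat n, inferInstance, torusCS hd, torus_isManifold hd, ?_, hT⟩
  exact ⟨inferInstance, inferInstance, inferInstance, gaussLat_compact n,
    QuotientAddGroup.mk_surjective.connectedSpace QuotientAddGroup.continuous_mk,
    ⟨_, hT.kaehler⟩⟩

end Pool.Agent.Lib.MP_ad9325_ag
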