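import Pool.Agent.Lib.MP_ad9325_ag.SL3
import Pool.Agent.Lib.MP_ad9325_ag.NonExist
import Pool.Agent.Lib.MP_ad9325_ag.Torus

open scoped Manifold ContDiff Topology Matrix.Norms.Operator
open Set Filter Matrix

set_option linter.style.haveILetI false
set_option linter.unusedSectionVars false

noncomputable section

namespace Pool.Agent.Lib.MP_ad9325_ag

/-- The complex atlas of `SL3`. -/
@[reducible] def csG : ChartedSpace (Fin 8 → ℂ) SL3 := translCS phiG dataG.one

/-- The complex atlas of the Borel subgroup. -/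
@[reducible] def csB : ChartedSpace (Fin 5 → ℂ) borel := translCS phiB dataB.one

attribute [local instance] csG csB

theorem lieG : LieGroup 𝓘(ℂ, Fin 8 → ℂ) ω SL3 := dataG.lieGroup

theorem lieB : LieGroup 𝓘(ℂ, Fin 5 → ℂ) ω borel := dataB.lieGroup

attribute [local instance] lieG lieB

/-- Splitting of the coordinates. -/
def split : ((Fin 5 → ℂ) × (Fin 3 → ℂ)) ≃ₗ[ℂ] (Fin 8 → ℂ) where
  toFun p := ![p.2 0, p.2 1, p.2 2, p.1 0, p.1 1, p.1 2, p.1 3, p.1 4]
  invFun y := (![y 3, y 4, y 5, y 6, y 7], ![y 0, y 1, y 2])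
  map_add' p q := by funext i; fin_cases i <;> rfl
  map_smul' c p := by funext i; fin_cases i <;> rfl
  left_inv p := by
    refine Prod.ext ?_ ?_ <;> (funext i; fin_cases i <;> rfl)
  right_inv y := by funext i; fin_cases i <;> rfl

theorem split_apply (p : (Fin 5 → ℂ) × (Fin 3 → ℂ)) :
    split p = ![p.2 0, p.2 1, p.2 2, p.1 0, p.1 1, p.1 2, p.1 3, p.1 4] := rfl

theorem LG_of_upper {x : Mat} (h1 : x 1 0 = 0) (h2 : x 2 1 = 0) (h3 : x 2 0 = 0) :
    LG x = split (LB x, 0) := by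
  rw [LG_apply, split_apply, LB_apply, h1, h2, h3]
  rfl

theorem emb_borel : Manifold.IsSmoothEmbedding 𝓘(ℂ, Fin 5 → ℂ) 𝓘(ℂ, Fin 8 → ℂ) ω
    (Subtype.val : borel → SL3) := by
  refine ⟨⟨Fin 3 → ℂ, inferInstance, inferInstance, fun h => ?_⟩, Topology.IsEmbedding.subtypeVal⟩
  have hsrc : ∀ k : borel, (k : SL3) ∈ (chartAt (Fin 8 → ℂ) (1 : SL3)).source := by
    intro k
    refine ⟨trivial, ?_⟩
    change (1⁻¹ * (k : SL3)) ∈ phiG.source
    rw [inv_one, one_mul]
    change k.1.1 0 0 * k.1.1 1 1 - k.1.1 0 1 * k.1.1 1 0 ≠ 0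
    rw [k.2.1, mul_zero, sub_zero]
    exact borel_ne k
  refine Manifold.IsImmersionAtOfComplement.mk_of_charts split.toContinuousLinearEquiv
    (chartAt (Fin 5 → ℂ) (1 : borel)) (chartAt (Fin 8 → ℂ) (1 : SL3)) ⟨trivial, trivial⟩ (hsrc h)
    (IsManifold.chart_mem_maximalAtlas _) (IsManifold.chart_mem_maximalAtlas _)
    (fun k _ => hsrc k) ?_
  intro y hy
  have hy' : y ∈ phiB.target := hy.2.1
  change LG ((1 : SL3)⁻¹ * (((1 : borel)⁻¹⁻¹ * phiB.symm y : borel) : SL3)).1 = split (y, 0)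
  simp only [inv_one, one_mul]
  rw [LG_of_upper (phiB.symm y).2.1 (phiB.symm y).2.2.1 (phiB.symm y).2.2.2]
  congr 2
  exact phiB.right_inv hy'

theorem isModel : IsModel (Fin 8 → ℂ) (Fin 5 → ℂ) borel where
  finG := inferInstance
  finH := inferInstance
  t2 := inferInstanceAs (T2Space {A : Mat // A.det = 1})
  sc := by
    haveI : SecondCountableTopology Mat :=
      inferInstanceAs (SecondCountableTopology (Fin 3 → Fin 3 → ℂ))
    exact inducing_valG.secondCountableTopology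
  lieG := lieG
  lieH := lieB
  closed := by
    have h : ∀ i j, Continuous fun g : SL3 => g.1 i j := fun i j =>
      (continuous_apply_apply i j).comp continuous_subtype_val
    exact (isClosed_eq (h 1 0) continuous_const).inter
      ((isClosed_eq (h 2 1) continuous_const).inter (isClosed_eq (h 2 0) continuous_const))
  emb := emb_borel

/-- The differential of the inclusion of `SL3` in the matrices. -/
def dG : (Fin 8 → ℂ) →L[ℂ] Mat := dval (Fin 8 → ℂ) valG

theorem LG_dG (X : Fin 8 → ℂ) : LG (dG X) = X := dataG.L_D_val X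

theorem dG_10 (X : Fin 8 → ℂ) : dG X 1 0 = X 0 := congrFun (LG_dG X) 0
theorem dG_21 (X : Fin 8 → ℂ) : dG X 2 1 = X 1 := congrFun (LG_dG X) 1
theorem dG_20 (X : Fin 8 → ℂ) : dG X 2 0 = X 2 := congrFun (LG_dG X) 2

theorem D_incl (A : Fin 5 → ℂ) :
    D 𝓘(ℂ, Fin 5 → ℂ) 𝓘(ℂ, Fin 8 → ℂ) (Subtype.val : borel → SL3) 1 A = split (A, 0) := by
  have h1 : dG (D 𝓘(ℂ, Fin 5 → ℂ) 𝓘(ℂ, Fin 8 → ℂ) (Subtype.val : borel → SL3) 1 A) =
      dval (Fin 5 → ℂ) valB A := dval_incl dataG.contMDiff_val emb_borel.contMDiff A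
  have h2 : ∀ i j, (∀ k : borel, k.1.1 i j = 0) → dval (Fin 5 → ℂ) valB A i j = 0 :=
    fun i j hij => dval_eq_zero dataB.contMDiff_val (ent i j) hij A
  rw [← LG_dG (D _ _ _ _ A), h1,
    LG_of_upper (h2 1 0 fun k => k.2.1) (h2 2 1 fun k => k.2.2.1) (h2 2 0 fun k => k.2.2.2),
    show LB (dval (Fin 5 → ℂ) valB A) = A from dataB.L_D_val A]

/-- The projection to the strictly lower triangular entries. -/
def Pr : (Fin 8 → ℂ) →L[ℂ] (Fin 3 → ℂ) :=
  ContinuousLinearMap.pi ![ContinuousLinearMap.proj 0, ContinuousLinearMap.proj 1,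
    ContinuousLinearMap.proj 2]

theorem Pr_apply (X : Fin 8 → ℂ) : Pr X = ![X 0, X 1, X 2] := by
  funext i; fin_cases i <;> rfl

theorem Pr_split (p : (Fin 5 → ℂ) × (Fin 3 → ℂ)) : Pr (split p) = p.2 := by
  funext i; fin_cases i <;> rfl

section
variable {M : Type} [TopologicalSpace M] [ChartedSpace (Fin 3 → ℂ) M]
  [IsManifold 𝓘(ℂ, Fin 3 → ℂ) ω M]

theorem has_geometry (hT : Transl (Fin 3 → ℂ) M) :
    HasGeometry (Fin 8 → ℂ) (Fin 5 → ℂ) borel (Fin 3 → ℂ) M False := by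
  refine hasGeometry_of_transl emb_borel.contMDiff hT
    (split.toContinuousLinearEquiv.toContinuousLinearMap.comp (ContinuousLinearMap.inr ℂ _ _)) ?_
  have : (fun p : (Fin 3 → ℂ) × (Fin 5 → ℂ) =>
      (split.toContinuousLinearEquiv.toContinuousLinearMap.comp (ContinuousLinearMap.inr ℂ _ _)) p.1 +
      D 𝓘(ℂ, Fin 5 → ℂ) 𝓘(ℂ, Fin 8 → ℂ) (Subtype.val : borel → SL3) 1 p.2) =
      split ∘ Prod.swap := by
    funext p
    rw [D_incl]
    change split (0, p.1) + split (p.2, 0) = split (p.2, p.1)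
    rw [← map_add]; simp
  rw [this]
  exact split.bijective.comp Prod.swap_bijective

theorem no_flat_geometry [CompactSpace M] [ConnectedSpace M] (hT : Transl (Fin 3 → ℂ) M) :
    ¬ HasGeometry (Fin 8 → ℂ) (Fin 5 → ℂ) borel (Fin 3 → ℂ) M True := by
  refine not_hasGeometry_flat hT Pr (fun u => ⟨split (0, u), Pr_split _⟩)
    (fun A => by rw [D_incl, Pr_split]) (ContinuousLinearMap.proj 2) 1 ?_
    ![1, 0, 0] ![0, 1, 0] rfl rfl ?_
  · intro h
    set p : Mat := valG (h : SL3)⁻¹ with hp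
    set q : Mat := valG (h : SL3) with hq
    obtain ⟨p1, p2, p3⟩ : p 1 0 = 0 ∧ p 2 1 = 0 ∧ p 2 0 = 0 := (h⁻¹).2
    obtain ⟨q1, q2, q3⟩ : q 1 0 = 0 ∧ q 2 1 = 0 ∧ q 2 0 = 0 := h.2
    have hpq : p 1 1 * q 1 1 = 1 := by
      have : p * q = 1 := by rw [hp, hq, ← map_mul, inv_mul_cancel, map_one]
      have h2 := congrFun (congrFun this 1) 1
      simpa [Matrix.mul_apply, Fin.sum_univ_three, p1, q2] using h2
    let m : Mat := !![p 1 1 * q 0 0, 0, p 1 2 * q 0 0; 0, p 2 2 * q 1 1, p 2 2 * q 0 1;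
      0, 0, p 2 2 * q 0 0]
    refine ⟨LinearMap.toContinuousLinearMap (Matrix.toLin' m), p 2 2 * q 0 0, ?_, ?_, ?_⟩
    · intro X
      have h1 : dG (Ad (Fin 8 → ℂ) (h : SL3)⁻¹ X) = p * dG X * q := by
        have := dval_Ad dataG.contMDiff_val (h : SL3)⁻¹ X
        rwa [inv_inv] at this
      rw [Pr_apply, Pr_apply, ← dG_10 (Ad _ _ X), ← dG_21 (Ad _ _ X), ← dG_20 (Ad _ _ X), h1,
        ← dG_10 X, ← dG_21 X, ← dG_20 X]
      funext i
      fin_cases i <;>
        simp [m, Matrix.mul_apply, Fin.sum_univ_three, p1, p2, p3, q1, q2, q3, Matrix.mulVec,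
          dotProduct] <;> ring
    · intro v
      simp [m, dotProduct, Fin.sum_univ_three]
    · rw [ContinuousLinearMap.det, LinearMap.coe_toContinuousLinearMap, LinearMap.det_toLin']
      simp only [m, Matrix.det_fin_three]
      simp
      linear_combination (p 2 2 * q 0 0) ^ 2 * hpq
  · intro X Y hX hY
    rw [Pr_apply] at hX hY
    have x0 : X 0 = 1 := congrFun hX 0
    have x1 : X 1 = 0 := congrFun hX 1
    have x2 : X 2 = 0 := congrFun hX 2
    have y0 : Y 0 = 0 := congrFun hY 0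
    have y1 : Y 1 = 1 := congrFun hY 1
    have y2 : Y 2 = 0 := congrFun hY 2
    have h1 : dG (lie SL3 X Y) = dG X * dG Y - dG Y * dG X := dval_lie dataG.contMDiff_val X Y
    change lie SL3 X Y 2 ≠ 0
    rw [← dG_20 (lie SL3 X Y), h1]
    simp [Matrix.mul_apply, Fin.sum_univ_three, dG_10, dG_21, dG_20, x0, x1, x2, y0, y1, y2]

end

theorem entries_holo (i j : Fin 3) :
    ContMDiff 𝓘(ℂ, Fin 8 → ℂ) 𝓘(ℂ, ℂ) ω (fun g : SL3 => g.1 i j) :=
  ((ent i j).contMDiff (n := ω)).comp dataG.contMDiff_val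

end Pool.Agent.Lib.MP_ad9325_ag
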