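import Pool.Agent.Lib.MP_ad9325_ag.MatGroup

open scoped Manifold ContDiff Topology Matrix.Norms.Operator
open Set Filter Matrix

set_option linter.style.haveILetI false
set_option linter.unusedSectionVars false

noncomputable section

namespace Pool.Agent.Lib.MP_ad9325_ag

abbrev Mat := Matrix (Fin 3) (Fin 3) ℂ
abbrev SL3 := Matrix.SpecialLinearGroup (Fin 3) ℂ

/-- The entry functional. -/
def ent (i j : Fin 3) : Mat →L[ℂ] ℂ :=
  LinearMap.toContinuousLinearMap (Matrix.entryLinearMap ℂ ℂ i j)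

@[simp] theorem ent_apply (i j : Fin 3) (x : Mat) : ent i j x = x i j := rfl

theorem contDiffAt_mat {E : Type} [NormedAddCommGroup E] [NormedSpace ℂ E] {f : E → Mat} {y : E}
    (h : ∀ i j, ContDiffAt ℂ ω (fun z => f z i j) y) : ContDiffAt ℂ ω f y := by
  have e : f = fun z => ∑ i, ∑ j, f z i j • (Matrix.single i j (1 : ℂ) : Mat) := by
    funext z
    conv_lhs => rw [Matrix.matrix_eq_sum_single (f z)]
    simp [Matrix.smul_single]
  rw [e]
  exact ContDiffAt.sum fun i _ => ContDiffAt.sum fun j _ => (h i j).smul contDiffAt_const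

theorem contDiff_ent (i j : Fin 3) : ContDiff ℂ ω (fun x : Mat => x i j) :=
  (ent i j).contDiff

theorem contDiff_adjugate : ContDiff ℂ ω (fun x : Mat => x.adjugate) := by
  rw [contDiff_iff_contDiffAt]
  intro x
  refine contDiffAt_mat fun i j => ContDiff.contDiffAt ?_
  simp only [Matrix.adjugate_fin_three]
  have h := contDiff_ent
  fin_cases i <;> fin_cases j <;> simp <;>
    first
    | exact ((h _ _).mul (h _ _)).sub ((h _ _).mul (h _ _))
    | exact ((h _ _).mul (h _ _)).neg.add ((h _ _).mul (h _ _))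

/-- The inclusion of `SL3` in the matrices. -/
def valG : SL3 →* Mat := Matrix.SpecialLinearGroup.coeMonoidHom

@[simp] theorem valG_apply (g : SL3) : valG g = g.1 := rfl

/-- Coordinates on `SL3`. -/
def LG : Mat →L[ℂ] (Fin 8 → ℂ) :=
  ContinuousLinearMap.pi ![ent 1 0, ent 2 1, ent 2 0, ent 0 0, ent 0 1, ent 0 2, ent 1 1, ent 1 2]

theorem LG_apply (x : Mat) :
    LG x = ![x 1 0, x 2 1, x 2 0, x 0 0, x 0 1, x 0 2, x 1 1, x 1 2] := by
  funext i; fin_cases i <;> rfl

/-- The matrix of determinant one with given coordinates. -/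
def psiG (y : Fin 8 → ℂ) : Mat :=
  !![y 3, y 4, y 5; y 0, y 6, y 7; y 2, y 1,
    (1 + y 3 * y 7 * y 1 - y 4 * y 7 * y 2 - y 5 * y 0 * y 1 + y 5 * y 6 * y 2) /
      (y 3 * y 6 - y 4 * y 0)]

theorem det_psiG {y : Fin 8 → ℂ} (h : y 3 * y 6 - y 4 * y 0 ≠ 0) : (psiG y).det = 1 := by
  simp [psiG, Matrix.det_fin_three]
  field_simp
  ring

theorem contDiffAt_psiG {y : Fin 8 → ℂ} (h : y 3 * y 6 - y 4 * y 0 ≠ 0) :
    ContDiffAt ℂ ω psiG y := by
  refine contDiffAt_mat fun i j => ?_
  have h2 : ContDiffAt ℂ ω (fun y : Fin 8 → ℂ =>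
      (1 + y 3 * y 7 * y 1 - y 4 * y 7 * y 2 - y 5 * y 0 * y 1 + y 5 * y 6 * y 2) /
      (y 3 * y 6 - y 4 * y 0)) y := ContDiffAt.div (by fun_prop) (by fun_prop) h
  fin_cases i <;> fin_cases j <;> first | exact h2 | (simp [psiG]; fun_prop)

theorem psiG_LG (g : SL3) (h : g.1 0 0 * g.1 1 1 - g.1 0 1 * g.1 1 0 ≠ 0) : psiG (LG g.1) = g.1 := by
  have hd := g.2
  rw [Matrix.det_fin_three] at hd
  ext i j
  fin_cases i <;> fin_cases j <;> simp [psiG, LG_apply]
  field_simp
  linear_combination -hd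

open Classical in
/-- The inverse of the chart of `SL3`. -/
def invG (y : Fin 8 → ℂ) : SL3 :=
  if h : y 3 * y 6 - y 4 * y 0 ≠ 0 then ⟨psiG y, det_psiG h⟩ else 1

theorem invG_val {y : Fin 8 → ℂ} (h : y 3 * y 6 - y 4 * y 0 ≠ 0) : (invG y).1 = psiG y :=
  congrArg Subtype.val (dif_pos h)

theorem inducing_valG : Topology.IsInducing (fun g : SL3 => (g.1 : Mat)) :=
  Topology.IsInducing.subtypeVal

/-- The chart of `SL3` at the identity. -/
def phiG : OpenPartialHomeomorph SL3 (Fin 8 → ℂ) where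
  toFun g := LG g.1
  invFun := invG
  source := {g | g.1 0 0 * g.1 1 1 - g.1 0 1 * g.1 1 0 ≠ 0}
  target := {y | y 3 * y 6 - y 4 * y 0 ≠ 0}
  map_source' g hg := by simpa [LG_apply] using hg
  map_target' y hy := by
    have hy' : y 3 * y 6 - y 4 * y 0 ≠ 0 := hy
    rw [mem_ofPred_eq, invG_val hy']
    simpa [psiG] using hy'
  left_inv' g hg := by
    have h : (LG g.1) 3 * (LG g.1) 6 - (LG g.1) 4 * (LG g.1) 0 ≠ 0 := by simpa [LG_apply] using hg
    exact Subtype.ext ((invG_val h).trans (psiG_LG g hg))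
  right_inv' y hy := by
    rw [invG_val hy]
    funext i
    fin_cases i <;> simp [LG_apply, psiG]
  open_source := by
    refine isOpen_ne_fun ?_ continuous_const
    have h : ∀ i j, Continuous fun g : SL3 => g.1 i j := fun i j =>
      (continuous_apply_apply i j).comp continuous_subtype_val
    exact ((h 0 0).mul (h 1 1)).sub ((h 0 1).mul (h 1 0))
  open_target := isOpen_ne_fun (by fun_prop) continuous_const
  continuousOn_toFun := (LG.continuous.comp continuous_subtype_val).continuousOn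
  continuousOn_invFun := by
    rw [inducing_valG.continuousOn_iff]
    exact ContinuousOn.congr (f := psiG)
      (fun y hy => (contDiffAt_psiG hy).continuousAt.continuousWithinAt) fun y hy => invG_val hy

theorem phiG_symm {y : Fin 8 → ℂ} (h : y ∈ phiG.target) : (phiG.symm y).1 = psiG y :=
  invG_val h

theorem dataG : ChartData valG phiG LG where
  one := by
    change (1 : Mat) 0 0 * (1 : Mat) 1 1 - (1 : Mat) 0 1 * (1 : Mat) 1 0 ≠ 0
    simp
  cont := continuous_subtype_val
  lin _ _ := rfl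
  symm := ContDiffOn.congr (f := psiG) (fun _ hy => (contDiffAt_psiG hy).contDiffWithinAt)
    fun _ hy => phiG_symm hy
  inv := ⟨_, contDiff_adjugate, fun _ => rfl⟩

/-- The Borel subgroup of upper triangular matrices. -/
def borel : Subgroup SL3 where
  carrier := {g | g.1 1 0 = 0 ∧ g.1 2 1 = 0 ∧ g.1 2 0 = 0}
  one_mem' := by simp
  mul_mem' := by
    rintro a b ⟨h1, h2, h3⟩ ⟨k1, k2, k3⟩
    simp [Matrix.mul_apply, Fin.sum_univ_three, *]
  inv_mem' := by
    rintro a ⟨h1, h2, h3⟩
    simp [Matrix.adjugate_fin_three, *]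

theorem mem_borel {g : SL3} : g ∈ borel ↔ g.1 1 0 = 0 ∧ g.1 2 1 = 0 ∧ g.1 2 0 = 0 := Iff.rfl

theorem mem_borel_iff (g : SL3) : g ∈ borel ↔ ∀ i j, j < i → g.1 i j = 0 := by
  rw [mem_borel]
  constructor
  · rintro ⟨h1, h2, h3⟩ i j hij
    fin_cases i <;> fin_cases j <;> simp_all
  · intro h
    exact ⟨h 1 0 (by decide), h 2 1 (by decide), h 2 0 (by decide)⟩

theorem borel_diag (h : borel) : h.1.1 0 0 * h.1.1 1 1 * h.1.1 2 2 = 1 := by
  have hd := h.1.2
  obtain ⟨h1, h2, h3⟩ := h.2
  rw [Matrix.det_fin_three, h1, h2, h3] at hd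
  linear_combination hd

theorem borel_ne (h : borel) : h.1.1 0 0 * h.1.1 1 1 ≠ 0 :=
  left_ne_zero_of_mul_eq_one (borel_diag h)

/-- The inclusion of the Borel subgroup in the matrices. -/
def valB : borel →* Mat := valG.comp borel.subtype

@[simp] theorem valB_apply (g : borel) : valB g = g.1.1 := rfl

/-- Coordinates on the Borel subgroup. -/
def LB : Mat →L[ℂ] (Fin 5 → ℂ) :=
  ContinuousLinearMap.pi ![ent 0 0, ent 0 1, ent 0 2, ent 1 1, ent 1 2]

theorem LB_apply (x : Mat) : LB x = ![x 0 0, x 0 1, x 0 2, x 1 1, x 1 2] := by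
  funext i; fin_cases i <;> rfl

/-- The upper triangular matrix of determinant one with given coordinates. -/
def psiB (y : Fin 5 → ℂ) : Mat := !![y 0, y 1, y 2; 0, y 3, y 4; 0, 0, (y 0 * y 3)⁻¹]

theorem det_psiB {y : Fin 5 → ℂ} (h : y 0 * y 3 ≠ 0) : (psiB y).det = 1 := by
  simp only [psiB, Matrix.det_fin_three]
  simp only [of_apply, cons_val', cons_val_zero, cons_val_fin_one, cons_val_one, cons_val,
    mul_zero, sub_zero, add_zero, zero_mul]
  exact mul_inv_cancel₀ h

theorem contDiffAt_psiB {y : Fin 5 → ℂ} (h : y 0 * y 3 ≠ 0) : ContDiffAt ℂ ω psiB y := by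
  refine contDiffAt_mat fun i j => ?_
  have h2 : ContDiffAt ℂ ω (fun z : Fin 5 → ℂ => (z 0 * z 3)⁻¹) y :=
    ContDiffAt.inv (by fun_prop) h
  fin_cases i <;> fin_cases j <;> first | exact h2 | (simp [psiB]; try fun_prop)

theorem psiB_LB (g : borel) : psiB (LB g.1.1) = g.1.1 := by
  have hd := borel_diag g
  obtain ⟨h1, h2, h3⟩ := g.2
  ext i j
  fin_cases i <;> fin_cases j <;> simp [psiB, LB_apply, h1, h2, h3]
  rw [← mul_inv, mul_comm]
  exact inv_eq_of_mul_eq_one_right hd

open Classical in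
/-- The global chart of the Borel subgroup. -/
def phiB : OpenPartialHomeomorph borel (Fin 5 → ℂ) where
  toFun g := LB g.1.1
  invFun y := if h : y 0 * y 3 ≠ 0 then ⟨⟨psiB y, det_psiB h⟩, ⟨rfl, rfl, rfl⟩⟩ else 1
  source := univ
  target := {y | y 0 * y 3 ≠ 0}
  map_source' g _ := by simpa [LB_apply] using borel_ne g
  map_target' y hy := trivial
  left_inv' g hg := by
    have h : (LB g.1.1) 0 * (LB g.1.1) 3 ≠ 0 := by simpa [LB_apply] using borel_ne g
    rw [dif_pos h]
    exact Subtype.ext (Subtype.ext (psiB_LB g))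
  right_inv' y hy := by
    have hy' : y 0 * y 3 ≠ 0 := hy
    rw [dif_pos hy']
    funext i
    fin_cases i <;> simp [LB_apply, psiB]
  open_source := isOpen_univ
  open_target := isOpen_ne_fun (by fun_prop) continuous_const
  continuousOn_toFun :=
    (LB.continuous.comp (continuous_subtype_val.comp continuous_subtype_val)).continuousOn
  continuousOn_invFun := by
    rw [(inducing_valG.comp Topology.IsInducing.subtypeVal).continuousOn_iff]
    refine ContinuousOn.congr (f := psiB)
      (fun y hy => (contDiffAt_psiB hy).continuousAt.continuousWithinAt) fun y hy => ?_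
    have hy' : y 0 * y 3 ≠ 0 := hy
    exact congrArg (fun g : borel => g.1.1) (dif_pos hy')

theorem phiB_symm {y : Fin 5 → ℂ} (h : y ∈ phiB.target) : (phiB.symm y).1.1 = psiB y := by
  have hy' : y 0 * y 3 ≠ 0 := h
  exact congrArg (fun g : borel => g.1.1) (dif_pos hy')

theorem dataB : ChartData valB phiB LB where
  one := trivial
  cont := continuous_subtype_val.comp continuous_subtype_val
  lin _ _ := rfl
  symm := ContDiffOn.congr (f := psiB) (fun _ hy => (contDiffAt_psiB hy).contDiffWithinAt)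
    fun _ hy => phiB_symm hy
  inv := ⟨_, contDiff_adjugate, fun _ => rfl⟩

end Pool.Agent.Lib.MP_ad9325_ag
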